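import Pool.Agent.K7.H61.HD.Two

set_option autoImplicit false

/-! The dimension in terms of one growth parameter. -/

namespace Pool.Agent.K7.H61.HD

open Set Filter Topology MeasureTheory
open Real (exp)
open Pool.Agent.R485.RG (ES ES_succ)

theorem abs_dim {p q : ℝ} (hpq : p < q) (f : ℕ → ℝ → ℝ) (a b γ : ℕ → ℝ) (Cen : ℕ → ℤ → Prop)
    {δ η ρ t : ℝ} (hδ : 0 < δ) (hη : 0 < η) (hρ : 0 < ρ) (hρ4 : 4 * ρ * (1 + δ) ≤ δ)
    (hηρ : 4 * η ≤ ρ) (ht0 : 0 < t) (ht1 : t ≤ 1) (hηt : η * (5 + 5 / δ) ≤ 3 / 4 * (1 - t))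
    (hγ0 : 0 ≤ γ 0) (hγ : ∀ k, (1 + δ) * γ k ≤ γ (k + 1))
    (hpq' : exp (-((1 + 2 * η) * γ 0)) ≤ q - p)
    (hb : ∀ k, 2 * b k ≤ exp ((1 + 2 * η) * γ (k + 1)))
    (haa : ∀ k, 16 * exp ((1 - 2 * η) * γ (k + 1)) ≤ a k)
    (hbig : ∀ k, 2 ≤ exp ((1 - η) * ρ * γ (k + 1)))
    (hab : ∀ k, a k ≤ b k)
    (hf : ∀ k, ContinuousOn (f k) (Icc p q))
    (hs : ∀ k, ∀ x ∈ Icc p q, ∀ y ∈ Icc p q, x ≤ y →
      a k * (y - x) ≤ f k y - f k x ∧ f k y - f k x ≤ b k * (y - x))
    (hcen : ∀ k z, f k p ≤ z → z + exp (ρ * γ (k + 1)) + 1 ≤ f k q → ∀ N : ℕ,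
      (N : ℝ) ≤ exp ((1 - η) * ρ * γ (k + 1)) → ∃ m : ℕ → ℤ,
       (∀ i, i < N → z ≤ m i ∧ (m i : ℝ) ≤ z + exp (ρ * γ (k + 1)) ∧ Cen k (m i)) ∧
       ∀ i j : ℕ, i < j → j < N → ((j : ℝ) - i) ≤ (m j : ℝ) - m i) :
    ENNReal.ofReal t ≤ dimH {x | x ∈ Icc p q ∧ ∀ k, ∃ m : ℤ, Cen k m ∧ (m : ℝ) ≤ f k x ∧
      f k x ≤ m + 1 / 2} := by
  have ha : ∀ k, 0 < a k := fun k => lt_of_lt_of_le (by positivity) (haa k)
  have hbp : ∀ k, 0 < b k := fun k => (ha k).trans_le (hab k)
  have hγn : ∀ k, 0 ≤ γ k := by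
    intro k
    induction k with
    | zero => exact hγ0
    | succ k ih =>
      refine le_trans ?_ (hγ k)
      positivity
  have hρ1 : ρ ≤ 1 / 4 := by
    by_contra hcon
    push Not at hcon
    nlinarith
  have hη1 : η ≤ 1 / 16 := by linarith
  set X : ℕ → ℝ := fun k => exp (ρ * γ (k + 1)) with hX
  have hX1 : ∀ k, 1 ≤ X k := fun k => Real.one_le_exp (mul_nonneg hρ.le (hγn _))
  set l : ℕ → ℝ := fun k => Nat.rec (q - p) (fun j _ => 1 / (2 * b j)) k with hl
  have hl0 : l 0 = q - p := rfl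
  have hl1 : ∀ k, l (k + 1) = 1 / (2 * b k) := fun k => rfl
  have hlow : ∀ k, exp (-((1 + 2 * η) * γ k)) ≤ l k := by
    intro k
    cases k with
    | zero => rw [hl0]; exact hpq'
    | succ k =>
      have h1 := hb k
      have h2 := hbp k
      rw [hl1, Real.exp_neg, ← one_div]
      exact one_div_le_one_div_of_le (by positivity) h1
  have hlp : ∀ k, 0 < l k := fun k => (Real.exp_pos _).trans_le (hlow k)
  -- the number of cells
  have hexp1 : ∀ k, (1 + 2 * η) * γ k ≤ (1 - 2 * η - ρ) * γ (k + 1) := by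
    intro k
    have h1 : (1 + 2 * η) ≤ (1 - 2 * η - ρ) * (1 + δ) := by nlinarith
    have h2 : 0 ≤ 1 - 2 * η - ρ := by linarith
    calc (1 + 2 * η) * γ k ≤ ((1 - 2 * η - ρ) * (1 + δ)) * γ k :=
          mul_le_mul_of_nonneg_right h1 (hγn k)
      _ = (1 - 2 * η - ρ) * ((1 + δ) * γ k) := by ring
      _ ≤ _ := mul_le_mul_of_nonneg_left (hγ k) h2
  have hr : ∀ k, 4 * exp ((1 - 2 * η - ρ) * γ (k + 1) - (1 + 2 * η) * γ k) ≤
      l k * a k / (4 * X k) := by
    intro k
    have h1 := hlow k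
    have h2 := haa k
    have h3 : 0 < X k := Real.exp_pos _
    rw [le_div_iff₀ (by positivity)]
    calc 4 * exp ((1 - 2 * η - ρ) * γ (k + 1) - (1 + 2 * η) * γ k) * (4 * X k)
        = exp (-((1 + 2 * η) * γ k)) * (16 * exp ((1 - 2 * η) * γ (k + 1))) := by
          simp only [hX]
          have e1 : exp ((1 - 2 * η - ρ) * γ (k + 1) - (1 + 2 * η) * γ k) * exp (ρ * γ (k + 1)) =
              exp (-((1 + 2 * η) * γ k)) * exp ((1 - 2 * η) * γ (k + 1)) := by
            rw [← Real.exp_add, ← Real.exp_add]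
            congr 1
            ring
          calc _ = 16 * (exp ((1 - 2 * η - ρ) * γ (k + 1) - (1 + 2 * η) * γ k) *
                exp (ρ * γ (k + 1))) := by ring
            _ = _ := by rw [e1]; ring
      _ ≤ l k * a k := mul_le_mul h1 h2 (by positivity) (hlp k).le
  have hex1 : ∀ k, ∃ e : ℕ, 1 ≤ e ∧ (2:ℝ) ^ e * (2 * ((X k + 1) / a k)) ≤ l k ∧
      2 * exp ((1 - 2 * η - ρ) * γ (k + 1) - (1 + 2 * η) * γ k) ≤ 2 ^ e := by
    intro k
    have h1 := hr k
    have h2 : 1 ≤ exp ((1 - 2 * η - ρ) * γ (k + 1) - (1 + 2 * η) * γ k) :=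
      Real.one_le_exp (by linarith [hexp1 k])
    have h3 := hX1 k
    have h4 := ha k
    set r := l k * a k / (4 * X k) with hrr
    obtain ⟨n, hn1, hn2⟩ := exists_nat_pow_near (show (1:ℝ) ≤ r by linarith) one_lt_two
    refine ⟨n, ?_, ?_, ?_⟩
    · rcases Nat.eq_zero_or_pos n with h0 | h0
      · rw [h0] at hn2
        norm_num at hn2
        linarith
      · exact h0
    · have e1 : l k = r * (4 * X k / a k) := by
        rw [hrr]
        field_simp
      rw [e1]
      have h5 : 2 * ((X k + 1) / a k) ≤ 4 * X k / a k := by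
        rw [← mul_div_assoc]
        apply div_le_div_of_nonneg_right _ h4.le
        linarith
      exact mul_le_mul hn1 h5 (by positivity) (by linarith)
    · rw [pow_succ] at hn2
      linarith
  choose e1 he1 he1' he1'' using hex1
  have hex2 : ∀ k, ∃ e : ℕ, 1 ≤ e ∧ (2:ℝ) ^ e ≤ exp ((1 - η) * ρ * γ (k + 1)) ∧
      exp ((1 - η) * ρ * γ (k + 1)) / 2 ≤ 2 ^ e := by
    intro k
    have h1 := hbig k
    obtain ⟨n, hn1, hn2⟩ := exists_nat_pow_near
      (show (1:ℝ) ≤ exp ((1 - η) * ρ * γ (k + 1)) by linarith) one_lt_two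
    refine ⟨n, ?_, hn1, ?_⟩
    · rcases Nat.eq_zero_or_pos n with h0 | h0
      · rw [h0] at hn2
        norm_num at hn2
        linarith
      · exact h0
    · rw [pow_succ] at hn2
      linarith
  choose e2 he2 he2' he2'' using hex2
  set E : ℕ → ℕ := fun j => e1 j + e2 j with hE
  set κ : ℝ := exp (-γ 0) with hκ
  have hκ0 : 0 < κ := Real.exp_pos _
  have hηρ2 : η * ρ ≤ η := by nlinarith
  have hprod : ∀ k, κ * exp ((1 - 3 * η - 5 * η / δ) * γ k) ≤ 2 ^ (ES E k) := by
    intro k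
    induction k with
    | zero =>
      have h1 : ES E 0 = 0 := by simp [ES]
      rw [h1, pow_zero, hκ, ← Real.exp_add]
      apply Real.exp_le_one_iff.2
      have h2 : 0 ≤ (3 * η + 5 * η / δ) * γ 0 := by positivity
      linarith
    | succ k ih =>
      rw [ES_succ, pow_add]
      have h1 := he1'' k
      have h2 := he2'' k
      have h3 : exp ((1 - 3 * η) * γ (k + 1) - (1 + 2 * η) * γ k) ≤ 2 ^ (E k) := by
        have h4 : exp ((1 - 3 * η) * γ (k + 1) - (1 + 2 * η) * γ k) ≤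
            (2 * exp ((1 - 2 * η - ρ) * γ (k + 1) - (1 + 2 * η) * γ k)) *
              (exp ((1 - η) * ρ * γ (k + 1)) / 2) := by
          have e3 : (2 * exp ((1 - 2 * η - ρ) * γ (k + 1) - (1 + 2 * η) * γ k)) *
              (exp ((1 - η) * ρ * γ (k + 1)) / 2) =
              exp ((1 - 2 * η - η * ρ) * γ (k + 1) - (1 + 2 * η) * γ k) := by
            have e4 : exp ((1 - 2 * η - η * ρ) * γ (k + 1) - (1 + 2 * η) * γ k) =
                exp ((1 - 2 * η - ρ) * γ (k + 1) - (1 + 2 * η) * γ k) *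
                  exp ((1 - η) * ρ * γ (k + 1)) := by
              rw [← Real.exp_add]
              congr 1
              ring
            rw [e4]
            ring
          rw [e3]
          apply Real.exp_le_exp.2
          have h5 : η * ρ * γ (k + 1) ≤ η * γ (k + 1) :=
            mul_le_mul_of_nonneg_right hηρ2 (hγn _)
          linarith
        refine h4.trans ?_
        rw [hE]
        simp only
        rw [pow_add]
        exact mul_le_mul h1 h2 (by positivity) (by positivity)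
      have h5 : exp ((1 - 3 * η - 5 * η / δ) * γ (k + 1)) ≤
          exp ((1 - 3 * η - 5 * η / δ) * γ k) *
            exp ((1 - 3 * η) * γ (k + 1) - (1 + 2 * η) * γ k) := by
        rw [← Real.exp_add]
        apply Real.exp_le_exp.2
        have h6 : 5 * η / δ * ((1 + δ) * γ k) ≤ 5 * η / δ * γ (k + 1) :=
          mul_le_mul_of_nonneg_left (hγ k) (by positivity)
        have h7 : 5 * η / δ * ((1 + δ) * γ k) = 5 * η / δ * γ k + 5 * η * γ k := by
          field_simp
        linarith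
      calc κ * exp ((1 - 3 * η - 5 * η / δ) * γ (k + 1))
          ≤ κ * (exp ((1 - 3 * η - 5 * η / δ) * γ k) *
            exp ((1 - 3 * η) * γ (k + 1) - (1 + 2 * η) * γ k)) :=
            mul_le_mul_of_nonneg_left h5 hκ0.le
        _ = (κ * exp ((1 - 3 * η - 5 * η / δ) * γ k)) *
            exp ((1 - 3 * η) * γ (k + 1) - (1 + 2 * η) * γ k) := by ring
        _ ≤ 2 ^ (ES E k) * 2 ^ (E k) := mul_le_mul ih h3 (by positivity) (by positivity)
  have htwo : (2:ℝ) ^ t ≤ 2 := by
    calc (2:ℝ) ^ t ≤ 2 ^ (1:ℝ) := Real.rpow_le_rpow_of_exponent_le (by norm_num) ht1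
      _ = 2 := Real.rpow_one _
  have hhalf : ∀ y z : ℝ, exp y / 2 ≤ z → exp (t * y) / 2 ≤ z ^ t := by
    intro y z hz
    have h6 : (exp y / 2) ^ t ≤ z ^ t := Real.rpow_le_rpow (by positivity) hz ht0.le
    refine le_trans ?_ h6
    rw [Real.div_rpow (Real.exp_pos _).le (by norm_num), ← Real.exp_mul, mul_comm y t]
    exact div_le_div_of_nonneg_left (Real.exp_pos _).le (by positivity) htwo
  have hηδ : η * (5 + 5 / δ) = 5 * η + 5 * η / δ := by ring
  rw [hηδ] at hηt
  have htη : t * η ≤ η := by nlinarith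
  refine two_level hpq f a b X Cen ha hab (fun k => Real.exp_pos _) hf hs e1 e2 he1 he2 ?_ l hl0 hl1
    he1' (C := 4 / κ) ht0 ht1 (by positivity) ?_ ?_
  · intro k z hz1 hz2
    obtain ⟨m, hm1, hm2⟩ := hcen k z hz1 hz2 (2 ^ (e2 k)) (by push_cast; exact he2' k)
    exact ⟨m, hm1, hm2⟩
  · intro k
    have h1 := hprod k
    have h2 := hlow k
    have h3 := hhalf _ _ (show exp (-((1 + 2 * η) * γ k)) / 2 ≤ l k / 2 by linarith)
    have h4 : κ / 2 ≤ 2 ^ (ES E k) * (l k / 2) ^ t := by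
      calc κ / 2 ≤ κ / 2 * exp ((1 - 3 * η - 5 * η / δ - t * (1 + 2 * η)) * γ k) := by
            have h5 : 1 ≤ exp ((1 - 3 * η - 5 * η / δ - t * (1 + 2 * η)) * γ k) := by
              apply Real.one_le_exp
              apply mul_nonneg _ (hγn k)
              nlinarith
            nlinarith
        _ = (κ * exp ((1 - 3 * η - 5 * η / δ) * γ k)) * (exp (t * -((1 + 2 * η) * γ k)) / 2) := by
            have e3 : exp ((1 - 3 * η - 5 * η / δ - t * (1 + 2 * η)) * γ k) =
                exp ((1 - 3 * η - 5 * η / δ) * γ k) * exp (t * -((1 + 2 * η) * γ k)) := by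
              rw [← Real.exp_add]
              congr 1
              ring
            rw [e3]
            ring
        _ ≤ _ := mul_le_mul h1 h3 (by positivity) (by positivity)
    calc (2:ℝ) = 4 / κ * (κ / 2) := by field_simp; norm_num
      _ ≤ 4 / κ * (2 ^ (ES E k) * (l k / 2) ^ t) := mul_le_mul_of_nonneg_left h4 (by positivity)
      _ = _ := by ring
  · intro k
    have h1 := hprod k
    have h2 := he1'' k
    have h3 := he2'' k
    have h4 := hb k
    have h5 : exp (((1 - η) * ρ - (1 + 2 * η)) * γ (k + 1)) / 2 ≤ 2 ^ (e2 k) / (2 * b k) := by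
      have e3 : exp (((1 - η) * ρ - (1 + 2 * η)) * γ (k + 1)) / 2 =
          (exp ((1 - η) * ρ * γ (k + 1)) / 2) / exp ((1 + 2 * η) * γ (k + 1)) := by
        have e4 : exp (((1 - η) * ρ - (1 + 2 * η)) * γ (k + 1)) =
            exp ((1 - η) * ρ * γ (k + 1)) / exp ((1 + 2 * η) * γ (k + 1)) := by
          rw [← Real.exp_sub]
          congr 1
          ring
        rw [e4]
        ring
      rw [e3]
      have := hbp k
      exact div_le_div₀ (by positivity) h3 (by positivity) h4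
    have h6 := hhalf _ _ h5
    have h7 : exp (-γ 0) * (2 * exp ((1 - 2 * η - ρ - 5 * η / δ) * γ (k + 1))) ≤
        2 ^ (ES E k + e1 k) := by
      rw [pow_add]
      calc exp (-γ 0) * (2 * exp ((1 - 2 * η - ρ - 5 * η / δ) * γ (k + 1)))
          ≤ (κ * exp ((1 - 3 * η - 5 * η / δ) * γ k)) *
            (2 * exp ((1 - 2 * η - ρ) * γ (k + 1) - (1 + 2 * η) * γ k)) := by
            have e3 : (κ * exp ((1 - 3 * η - 5 * η / δ) * γ k)) *
                (2 * exp ((1 - 2 * η - ρ) * γ (k + 1) - (1 + 2 * η) * γ k)) =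
                κ * (2 * exp ((1 - 3 * η - 5 * η / δ) * γ k +
                  ((1 - 2 * η - ρ) * γ (k + 1) - (1 + 2 * η) * γ k))) := by
              rw [Real.exp_add]
              ring
            rw [e3]
            apply mul_le_mul_of_nonneg_left _ hκ0.le
            apply mul_le_mul_of_nonneg_left _ (by norm_num)
            apply Real.exp_le_exp.2
            have h6 : 5 * η / δ * ((1 + δ) * γ k) ≤ 5 * η / δ * γ (k + 1) :=
              mul_le_mul_of_nonneg_left (hγ k) (by positivity)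
            have h7 : 5 * η / δ * ((1 + δ) * γ k) = 5 * η / δ * γ k + 5 * η * γ k := by
              field_simp
            linarith
        _ ≤ _ := mul_le_mul h1 h2 (by positivity) (by positivity)
    have h8 : κ ≤ 2 ^ (ES E k + e1 k) * (2 ^ (e2 k) / (2 * b k)) ^ t := by
      calc κ ≤ κ * exp ((1 - 2 * η - ρ - 5 * η / δ + t * ((1 - η) * ρ - (1 + 2 * η))) *
            γ (k + 1)) := by
            have h5 : 1 ≤ exp ((1 - 2 * η - ρ - 5 * η / δ + t * ((1 - η) * ρ - (1 + 2 * η))) *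
                γ (k + 1)) := by
              apply Real.one_le_exp
              apply mul_nonneg _ (hγn _)
              have e5 : 1 - 2 * η - ρ - 5 * η / δ + t * ((1 - η) * ρ - (1 + 2 * η)) =
                  (1 - ρ) * (1 - t) - 2 * η - 5 * η / δ - t * (η * ρ) - 2 * (t * η) := by ring
              rw [e5]
              have h9 : t * (η * ρ) ≤ t * η := mul_le_mul_of_nonneg_left hηρ2 ht0.le
              have h10 : 3 / 4 * (1 - t) ≤ (1 - ρ) * (1 - t) :=
                mul_le_mul_of_nonneg_right (by linarith) (by linarith)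
              linarith
            nlinarith
        _ = (exp (-γ 0) * (2 * exp ((1 - 2 * η - ρ - 5 * η / δ) * γ (k + 1)))) *
            (exp (t * (((1 - η) * ρ - (1 + 2 * η)) * γ (k + 1))) / 2) := by
            have e3 : exp ((1 - 2 * η - ρ - 5 * η / δ + t * ((1 - η) * ρ - (1 + 2 * η))) *
                γ (k + 1)) = exp ((1 - 2 * η - ρ - 5 * η / δ) * γ (k + 1)) *
                exp (t * (((1 - η) * ρ - (1 + 2 * η)) * γ (k + 1))) := by
              rw [← Real.exp_add]
              congr 1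
              ring
            rw [e3, hκ]
            ring
        _ ≤ _ := mul_le_mul h7 h6 (by positivity) (by positivity)
    calc (2:ℝ) ≤ 4 / κ * κ := by
          rw [div_mul_cancel₀ _ hκ0.ne']
          norm_num
      _ ≤ 4 / κ * (2 ^ (ES E k + e1 k) * (2 ^ (e2 k) / (2 * b k)) ^ t) :=
          mul_le_mul_of_nonneg_left h8 (by positivity)
      _ = _ := by ring

end Pool.Agent.K7.H61.HD
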