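import Pool.Agent.R485.RG.Main

set_option autoImplicit false

/-! The sequences admitted: `Y n` may tend to zero, but not exponentially in `v n`. -/

namespace Pool.Agent.K7.H61.HD

open MeasureTheory Filter Topology Set
open Real (log exp)
open Pool.Agent.R485.RG (F Adm G exp_G)

/-- the condition on the sequences -/
def Adm' (Y v : ℕ → ℝ) : Prop :=
  (∀ᶠ n in atTop, 0 < Y n ∧ 1 ≤ v n) ∧ Tendsto (fun n => log (Y n) + v n) atTop atTop ∧
    ∀ ε : ℝ, 0 < ε → ∀ᶠ n in atTop, -(ε * (log (Y n) + v n)) ≤ log (Y n)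

lemma adm'_of_adm {Y v : ℕ → ℝ} (h : Adm Y v) : Adm' Y v := by
  obtain ⟨⟨δ, hδ, hY⟩, hv, hlim⟩ := h
  refine ⟨?_, hlim, fun ε hε => ?_⟩
  · filter_upwards [hY, hv] with n h1 h2
    exact ⟨by linarith, h2⟩
  · filter_upwards [hY, (hlim.const_mul_atTop hε).eventually_ge_atTop |log δ|] with n h1 h2
    have h3 : log δ ≤ log (Y n) := Real.log_le_log hδ h1
    have h4 := neg_abs_le (log δ)
    linarith

/-- comparison of `G` and `log Y + v` -/
lemma G_lower {Y v : ℕ → ℝ} (h : Adm' Y v) {u : ℝ} (hu : 1 < u) : ∀ᶠ n in atTop,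
    min 1 (log u) / 2 * (log (Y n) + v n) ≤ G Y v u n := by
  obtain ⟨hYv, hlim, hε⟩ := h
  have hlu : 0 < log u := Real.log_pos hu
  set κ : ℝ := min 1 (log u) with hκ
  have hκ0 : 0 < κ := lt_min one_pos hlu
  have hκ1 : κ ≤ 1 := min_le_left _ _
  have hκ2 : κ ≤ log u := min_le_right _ _
  filter_upwards [hYv, hlim.eventually_ge_atTop 0, hε (κ / 2) (by positivity)] with n h1 h2 h3
  obtain ⟨hY, hv⟩ := h1
  unfold G
  have h4 : κ * v n ≤ v n * log u := by nlinarith
  have h5 : -(κ / 2 * (log (Y n) + v n)) ≤ (1 - κ) * log (Y n) := by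
    rcases le_total 0 (log (Y n)) with h | h
    · have h6 : 0 ≤ (1 - κ) * log (Y n) := mul_nonneg (by linarith) h
      have h7 : 0 ≤ κ / 2 * (log (Y n) + v n) := by positivity
      linarith
    · nlinarith
  nlinarith

lemma G_tendsto' {Y v : ℕ → ℝ} (h : Adm' Y v) {u : ℝ} (hu : 1 < u) : Tendsto (G Y v u) atTop atTop := by
  have hlu : 0 < log u := Real.log_pos hu
  have hκ0 : 0 < min 1 (log u) / 2 := half_pos (lt_min one_pos hlu)
  exact tendsto_atTop_mono' atTop (G_lower h hu) (h.2.1.const_mul_atTop hκ0)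

lemma val_tendsto' {Y v : ℕ → ℝ} (h : Adm' Y v) {α : ℝ} (hα : 1 < α) :
    Tendsto (fun n => Y n * α ^ (v n)) atTop atTop := by
  have h1 := Real.tendsto_exp_atTop.comp (G_tendsto' h hα)
  refine h1.congr' ?_
  filter_upwards [h.1] with n hn
  simp only [Function.comp_apply]
  exact exp_G hn.1 (by linarith)

/-- everything is controlled by `G` -/
lemma bounds' {Y v : ℕ → ℝ} (h : Adm' Y v) {u w η : ℝ} (hu : 1 < u) (huw : u < w)
    (hη : 0 < η) (hη1 : η ≤ 1) (hw : log w ≤ (1 + η) * log u) :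
    ∀ᶠ n in atTop, 0 < Y n ∧ 1 ≤ v n ∧ 1 ≤ G Y v u n ∧ v n ≤ 2 * G Y v u n / log u ∧
      Y n * w ^ (v n) ≤ exp ((1 + 3 / 2 * η) * G Y v u n) := by
  have hlu : 0 < log u := Real.log_pos hu
  have hG := G_tendsto' h hu
  set κ : ℝ := min 1 (log u) / 2 with hκ
  have hκ0 : 0 < κ := half_pos (lt_min one_pos hlu)
  filter_upwards [h.1, G_lower h hu, h.2.1.eventually_ge_atTop 0, h.2.2 (κ / 2) (by positivity),
    hG.eventually_ge_atTop 1] with n h1 h2 h3 h4 h5
  obtain ⟨hY, hv⟩ := h1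
  have h6 : -(G Y v u n / 2) ≤ log (Y n) := by
    have h2' : κ * (log (Y n) + v n) ≤ G Y v u n := h2
    have : κ / 2 * (log (Y n) + v n) = κ * (log (Y n) + v n) / 2 := by ring
    linarith
  have h7 : v n * log u = G Y v u n - log (Y n) := by
    unfold G
    ring
  refine ⟨hY, hv, h5, ?_, ?_⟩
  · rw [le_div_iff₀ hlu]
    linarith
  · have hw0 : 0 < w := by linarith
    rw [← exp_G hY hw0]
    apply Real.exp_le_exp.2
    have e1 : G Y v w n = log (Y n) + v n * log w := rfl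
    rw [e1]
    have e2 : v n * log w ≤ v n * ((1 + η) * log u) := mul_le_mul_of_nonneg_left hw (by linarith)
    have e3 : v n * ((1 + η) * log u) = (1 + η) * (G Y v u n - log (Y n)) := by
      rw [← h7]
      ring
    have e4 : η * (-log (Y n)) ≤ η * (G Y v u n / 2) := mul_le_mul_of_nonneg_left (by linarith) hη.le
    nlinarith

end Pool.Agent.K7.H61.HD
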