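import Pool.Agent.K7.H61.HD.Lac

set_option autoImplicit false

/-! Patterns and windows of record size at all terms of a lacunary sequence: dimension one. -/

namespace Pool.Agent.K7.H61.HD

open MeasureTheory Filter Topology Set
open Real (log exp)
open Pool.Agent.R485.RG (F G exp_G pow_slope small_lim Free F_growth F_ge F_tendsto t2 t3 t4)

lemma dimH_eq_one {S : Set ℝ} (h : ∀ t : ℝ, 0 < t → t < 1 → ENNReal.ofReal t ≤ dimH S) : dimH S = 1 := by
  refine le_antisymm ((dimH_mono (subset_univ _)).trans (le_of_eq Real.dimH_univ)) ?_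
  refine le_of_forall_lt fun s hs => ?_
  obtain ⟨r, hr1, hr2⟩ := exists_between hs
  have hrt : r ≠ ⊤ := (hr2.trans ENNReal.one_lt_top).ne
  set t : ℝ := max (1 / 2) r.toReal with ht
  have ht0 : 0 < t := lt_of_lt_of_le (by norm_num) (le_max_left _ _)
  have ht1 : t < 1 := by
    rw [ht, max_lt_iff]
    refine ⟨by norm_num, ?_⟩
    rw [← ENNReal.toReal_one]
    exact (ENNReal.toReal_lt_toReal hrt ENNReal.one_ne_top).2 hr2
  have hrt' : r ≤ ENNReal.ofReal t := by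
    rw [← ENNReal.ofReal_toReal hrt]
    exact ENNReal.ofReal_le_ofReal (le_max_right _ _)
  exact (hr1.trans_le hrt').trans_le (h t ht0 ht1)

lemma log_cmp (A : ℕ) {ρ : ℝ} (hρ : 0 < ρ) : ∀ᶠ g : ℝ in atTop,
    g * (log g) ^ A ≤ (ρ * g) * (log (ρ * g)) ^ (A + 1) := by
  have h1 : Tendsto (fun g : ℝ => log (ρ * g)) atTop atTop :=
    Real.tendsto_log_atTop.comp (tendsto_id.const_mul_atTop hρ)
  filter_upwards [h1.eventually_ge_atTop (2 ^ A / ρ), h1.eventually_ge_atTop (-log ρ),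
    h1.eventually_ge_atTop 0, eventually_ge_atTop 1] with g h2 h3 h4 h5
  have hg : 0 < g := by linarith
  have h6 : log (ρ * g) = log ρ + log g := Real.log_mul hρ.ne' hg.ne'
  have h7 : log g ≤ 2 * log (ρ * g) := by linarith
  have h8 : 0 ≤ log g := Real.log_nonneg h5
  have h9 : (log g) ^ A ≤ 2 ^ A * (log (ρ * g)) ^ A := by
    rw [← mul_pow]
    exact pow_le_pow_left₀ h8 h7 A
  rw [div_le_iff₀ hρ] at h2
  calc g * (log g) ^ A ≤ g * (2 ^ A * (log (ρ * g)) ^ A) := by gcongr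
    _ ≤ g * ((log (ρ * g) * ρ) * (log (ρ * g)) ^ A) := by gcongr
    _ = (ρ * g) * (log (ρ * g)) ^ (A + 1) := by ring

/-- **Patterns of record size**: dimension one. -/
theorem lac_pat (A D : ℕ) (hD : 0 < D) : ∃ c : ℝ, 0 < c ∧ ∀ (Y v : ℕ → ℝ) (_ : Adm' Y v) (δ C₀ : ℝ),
    0 < δ → ∀ u w : ℝ, 1 < u → u < w →
    (∀ᶠ n in atTop, (1 + δ) * G Y v u n - C₀ ≤ G Y v u (n + 1)) → ∀ (r : ℕ → ℤ) (Z : ℕ → Finset ℤ),
    (∀ᶠ n in atTop, (∀ z ∈ Z n, |(z : ℝ)| ≤ log (Y n * u ^ (v n)) *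
      (log (log (Y n * u ^ (v n)))) ^ A) ∧
      ((Z n).card : ℝ) ≤ c * (δ / (1 + δ)) * F (Y n * u ^ (v n))) →
    dimH {α : ℝ | α ∈ Icc u w ∧ ∀ᶠ n in atTop,
      Good D (r n) (Y n * α ^ (v n)) (Z n) ⌊Y n * α ^ (v n)⌋} = 1 := by
  obtain ⟨c₀, hc₀, hfr⟩ := freq_input (A + 1) D hD
  refine ⟨c₀ / 64, by positivity, ?_⟩
  intro Y v h δ C₀ hδ u w hu huw hgr r Z hZ
  have hu0 : 0 < u := by linarith
  have hρ := rho_pos hδ
  have hρ1 : rho δ ≤ 1 / 4 := by
    unfold rho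
    rw [div_le_div_iff₀ (by positivity) (by norm_num)]
    linarith
  have hG := G_tendsto' h hu
  have hXlim : Tendsto (fun n => exp (rho δ * G Y v u n)) atTop atTop :=
    Real.tendsto_exp_atTop.comp (hG.const_mul_atTop hρ)
  have hbase : ∀ᶠ n in atTop, 0 < Y n ∧ 1 ≤ v n ∧ 0 ≤ G Y v u n := by
    filter_upwards [h.1, hG.eventually_ge_atTop 0] with n h1 h3
    exact ⟨h1.1, h1.2, h3⟩
  have hZ' : ∀ᶠ n in atTop, (∀ z ∈ Z n, |(z : ℝ)| ≤ log (exp (rho δ * G Y v u n)) *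
      (log (log (exp (rho δ * G Y v u n)))) ^ (A + 1)) ∧
      ((Z n).card : ℝ) ≤ c₀ * F (exp (rho δ * G Y v u n)) := by
    have hK : 1 ≤ 1 / rho δ := by
      rw [le_div_iff₀ hρ]
      linarith
    filter_upwards [hZ, hbase, hG.eventually (log_cmp A hρ), hXlim.eventually (F_growth (1 / rho δ) hK),
      hXlim.eventually (F_tendsto.eventually_ge_atTop 0)]
      with n h1 h2 h3 h4 h5
    obtain ⟨hY0, hv1, hg0⟩ := h2
    obtain ⟨h6, h7⟩ := h1
    rw [← exp_G hY0 hu0] at h6 h7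
    rw [Real.log_exp] at h6
    rw [Real.log_exp]
    refine ⟨fun z hz => (h6 z hz).trans h3, h7.trans ?_⟩
    have h8 : F (exp (G Y v u n)) ≤ 8 * (1 / rho δ) * F (exp (rho δ * G Y v u n)) := by
      apply h4
      · apply Real.exp_le_exp.2
        nlinarith
      · rw [Real.log_exp, Real.log_exp]
        apply le_of_eq
        field_simp
    calc c₀ / 64 * (δ / (1 + δ)) * F (exp (G Y v u n))
        ≤ c₀ / 64 * (δ / (1 + δ)) * (8 * (1 / rho δ) * F (exp (rho δ * G Y v u n))) := by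
          gcongr
      _ = c₀ * ((δ / (1 + δ)) * (1 / rho δ) / 8) * F (exp (rho δ * G Y v u n)) := by ring
      _ ≤ c₀ * 1 * F (exp (rho δ * G Y v u n)) := by
          gcongr
          unfold rho
          rw [one_div_div, div_mul_div_comm, div_div, div_le_one (by positivity)]
          nlinarith
      _ = _ := by ring
  apply dimH_eq_one
  intro t ht0 ht1
  have h1t : 0 < 1 - t := by linarith
  set η : ℝ := (1 - t) * (δ / 2) / (16 * (1 + δ / 2)) with hη
  have hη0 : 0 < η := by rw [hη]; positivity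
  set w' : ℝ := min w (u ^ (1 + η)) with hw'
  have h1 : u < w' := by
    rw [hw', lt_min_iff]
    constructor
    · exact huw
    · calc u = u ^ (1 : ℝ) := (Real.rpow_one _).symm
        _ < u ^ (1 + η) := Real.rpow_lt_rpow_of_exponent_lt hu (by linarith)
  have h2 : w' ≤ w := min_le_left _ _
  have h3 : log w' ≤ (1 + η) * log u := by
    rw [← Real.log_rpow hu0]
    exact Real.log_le_log (by linarith) (min_le_right _ _)
  refine (lac_short hfr Y v h hδ hgr hu h1 ht0 ht1 hη h3 r Z hZ').trans (dimH_mono ?_)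
  rintro α ⟨hα, hαn⟩
  refine ⟨⟨hα.1, hα.2.trans h2⟩, ?_⟩
  filter_upwards [hαn, hbase] with n hn hb
  obtain ⟨hY0, hv1, hg0⟩ := hb
  refine ⟨hn.1, fun z hz => ?_⟩
  obtain ⟨p, hp, hpX, hpd⟩ := hn.2 z hz
  refine ⟨p, hp, hpX.trans ?_, hpd⟩
  apply Real.rpow_le_rpow (Real.exp_pos _).le _ (by norm_num)
  have e1 : exp (rho δ * G Y v u n) ≤ exp (G Y v u n) := by
    apply Real.exp_le_exp.2
    nlinarith
  refine e1.trans ?_
  rw [exp_G hY0 hu0]
  apply mul_le_mul_of_nonneg_left _ hY0.le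
  exact Real.rpow_le_rpow hu0.le hα.1 (by linarith)

lemma F_le_sq : ∀ᶠ X : ℝ in atTop, F X ≤ log X * (log (log X)) ^ 2 := by
  filter_upwards [Real.tendsto_log_atTop.eventually_ge_atTop 1, t2.eventually_ge_atTop 1,
    t3.eventually_ge_atTop 1, t4.eventually_ge_atTop 1] with X h1 h2 h3 h4
  unfold F
  have e3 : log (log (log (log X))) ≤ log (log (log X)) := by
    have := Real.log_le_sub_one_of_pos (show 0 < log (log (log X)) by linarith)
    linarith
  rw [div_le_iff₀ (by positivity)]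
  have e4 : log (log (log (log X))) ≤ log (log (log X)) ^ 2 := by nlinarith
  have e5 : 0 < log X := by linarith
  gcongr

/-- **Windows of record size**: dimension one. -/
theorem lac_win : ∃ c : ℝ, 0 < c ∧ ∀ (Y v : ℕ → ℝ) (_ : Adm' Y v) (δ C₀ : ℝ), 0 < δ →
    ∀ u w : ℝ, 1 ≤ u → u < w →
    (∀ᶠ n in atTop, (1 + δ) * G Y v ((u + w) / 2) n - C₀ ≤ G Y v ((u + w) / 2) (n + 1)) →
    dimH {α : ℝ | α ∈ Ioo u w ∧ ∀ᶠ n in atTop,
      Free (c * (δ / (1 + δ)) * F (Y n * α ^ (v n))) (Y n * α ^ (v n))} = 1 := by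
  obtain ⟨c₀, hc₀, hpat⟩ := lac_pat 2 1 one_pos
  set c₁ : ℝ := min c₀ 1 with hc₁
  have hc₁0 : 0 < c₁ := lt_min hc₀ one_pos
  have hc₁1 : c₁ ≤ 1 := min_le_right _ _
  refine ⟨c₁ / 192, by positivity, ?_⟩
  intro Y v h δ C₀ hδ u w hu huw hgr
  set u' : ℝ := (u + w) / 2 with hu'
  have hu1 : 1 < u' := by rw [hu']; linarith
  have hu0' : 0 < u' := by linarith
  have hlu : 0 < log u' := Real.log_pos hu1
  set w' : ℝ := min ((u' + w) / 2) (u' ^ (2 : ℝ)) with hw'
  have h1 : u' < w' := by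
    rw [hw', lt_min_iff]
    constructor
    · rw [hu']; linarith
    · calc u' = u' ^ (1 : ℝ) := (Real.rpow_one _).symm
        _ < u' ^ (2 : ℝ) := Real.rpow_lt_rpow_of_exponent_lt hu1 (by norm_num)
  have h2 : w' < w := (min_le_left _ _).trans_lt (by rw [hu']; linarith)
  have h3 : log w' ≤ (1 + 1) * log u' := by
    have h4 := Real.log_le_log (by linarith) (min_le_right ((u' + w) / 2) (u' ^ (2 : ℝ)))
    rw [Real.log_rpow hu0'] at h4
    linarith
  have hG := G_tendsto' h hu1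
  have hb := bounds' h hu1 h1 (η := 1) one_pos le_rfl h3
  set k : ℝ := c₁ * (δ / (1 + δ)) / 8 with hk
  have hk0 : 0 < k := by rw [hk]; positivity
  have hδ1 : δ / (1 + δ) ≤ 1 := by
    rw [div_le_one (by linarith)]
    linarith
  have hk8 : 8 * k ≤ 1 := by
    have : c₁ * (δ / (1 + δ)) ≤ 1 * 1 := mul_le_mul hc₁1 hδ1 (by positivity) zero_le_one
    rw [hk]
    linarith
  set T : ℕ → ℝ := fun n => k * F (Y n * u' ^ (v n)) with hT
  set Z : ℕ → Finset ℤ := fun n => Finset.Icc (-⌈T n + 1⌉) ⌈T n + 1⌉ with hZd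
  have hval := val_tendsto' h hu1
  have hFlim := F_tendsto.comp hval
  have hZ : ∀ᶠ n in atTop, (∀ z ∈ Z n, |(z : ℝ)| ≤ log (Y n * u' ^ (v n)) *
      (log (log (Y n * u' ^ (v n)))) ^ 2) ∧
      ((Z n).card : ℝ) ≤ c₀ * (δ / (1 + δ)) * F (Y n * u' ^ (v n)) := by
    filter_upwards [hval.eventually F_le_sq, hFlim.eventually_ge_atTop (1 / k),
      hFlim.eventually_ge_atTop 4] with n h4 h5 h6
    simp only [Function.comp_apply] at h5 h6
    rw [div_le_iff₀ hk0] at h5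
    have h7 : 1 ≤ T n := by simp only [hT]; linarith
    have h8 := Int.ceil_lt_add_one (T n + 1)
    have h9 : 8 * T n ≤ F (Y n * u' ^ (v n)) := by
      simp only [hT]
      nlinarith
    constructor
    · intro z hz
      simp only [hZd, Finset.mem_Icc] at hz
      have h10 : |(z : ℝ)| ≤ ⌈T n + 1⌉ := by
        rw [abs_le]
        constructor
        · have := hz.1
          have h11 : ((-⌈T n + 1⌉ : ℤ) : ℝ) ≤ z := by exact_mod_cast this
          push_cast at h11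
          exact h11
        · exact_mod_cast hz.2
      linarith
    · have h10 : (((Z n).card : ℕ) : ℝ) = 2 * (⌈T n + 1⌉ : ℝ) + 1 := by
        simp only [hZd]
        rw [Int.card_Icc]
        have h11 : (0:ℤ) ≤ ⌈T n + 1⌉ := Int.ceil_nonneg (by linarith)
        have h12 : (((⌈T n + 1⌉ + 1 - -⌈T n + 1⌉).toNat : ℕ) : ℤ) = 2 * ⌈T n + 1⌉ + 1 := by
          rw [Int.toNat_of_nonneg (by linarith)]
          ring
        have h13 : ((((⌈T n + 1⌉ + 1 - -⌈T n + 1⌉).toNat : ℕ) : ℤ) : ℝ) = ((2 * ⌈T n + 1⌉ + 1 : ℤ) : ℝ) := by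
          rw [h12]
        rw [Int.cast_natCast] at h13
        rw [h13]
        push_cast
        ring
      rw [h10]
      have h11 : 8 * T n = c₁ * (δ / (1 + δ)) * F (Y n * u' ^ (v n)) := by
        simp only [hT, hk]
        ring
      have h12 : c₁ * (δ / (1 + δ)) * F (Y n * u' ^ (v n)) ≤ c₀ * (δ / (1 + δ)) * F (Y n * u' ^ (v n)) := by
        have : c₁ ≤ c₀ := min_le_left _ _
        gcongr
      -- `2 (T + 2) + 1 ≤ 8 T` needs `T ≥ 5 / 6`
      nlinarith
  have key := hpat Y v h δ C₀ hδ u' w' hu1 h1 hgr (fun _ => 0) Z hZ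
  refine le_antisymm ((dimH_mono (subset_univ _)).trans (le_of_eq Real.dimH_univ)) ?_
  rw [← key]
  apply dimH_mono
  rintro α ⟨hα, hαn⟩
  refine ⟨⟨lt_of_lt_of_le (by rw [hu']; linarith) hα.1, hα.2.trans_lt h2⟩, ?_⟩
  have hgr3 := hval.eventually (F_growth 3 (by norm_num))
  filter_upwards [hαn, hb, hgr3, hFlim.eventually_ge_atTop 0]
    with n hn h4 h5 h6
  obtain ⟨hY0, hv1, hg1, -, hYw⟩ := h4
  simp only [Function.comp_apply] at h6
  have e1 : Y n * u' ^ (v n) ≤ Y n * α ^ (v n) :=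
    mul_le_mul_of_nonneg_left (Real.rpow_le_rpow hu0'.le hα.1 (by linarith)) hY0.le
  have e2 : Y n * α ^ (v n) ≤ Y n * w' ^ (v n) :=
    mul_le_mul_of_nonneg_left (Real.rpow_le_rpow (by linarith [hα.1]) hα.2 (by linarith)) hY0.le
  have hy0 : 0 < Y n * u' ^ (v n) := by positivity
  have e3 : F (Y n * α ^ (v n)) ≤ 8 * 3 * F (Y n * u' ^ (v n)) := by
    apply h5 _ e1
    have h7 : log (Y n * α ^ (v n)) ≤ (1 + 3 / 2 * 1) * G Y v u' n := by
      rw [← Real.log_exp ((1 + 3 / 2 * 1) * G Y v u' n)]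
      exact Real.log_le_log (by linarith) (e2.trans hYw)
    rw [← exp_G hY0 hu0', Real.log_exp]
    linarith
  have e4 : c₁ / 192 * (δ / (1 + δ)) * F (Y n * α ^ (v n)) ≤ T n := by
    calc c₁ / 192 * (δ / (1 + δ)) * F (Y n * α ^ (v n))
        ≤ c₁ / 192 * (δ / (1 + δ)) * (8 * 3 * F (Y n * u' ^ (v n))) := by gcongr
      _ = T n := by
          simp only [hT, hk]
          ring
  intro p hp
  by_contra hcon
  push Not at hcon
  set y := Y n * α ^ (v n) with hy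
  have e5 : |(p : ℝ) - y| ≤ T n := hcon.trans e4
  have e6 := Int.floor_le y
  have e7 := Int.lt_floor_add_one y
  rw [abs_le] at e5
  have e8 : (p : ℤ) - ⌊y⌋ ∈ Z n := by
    simp only [hZd, Finset.mem_Icc]
    have f1 := Int.le_ceil (T n + 1)
    constructor
    · have : ((-⌈T n + 1⌉ : ℤ) : ℝ) ≤ ((p : ℤ) - ⌊y⌋ : ℤ) := by
        push_cast
        linarith [e5.1]
      exact_mod_cast this
    · have : (((p : ℤ) - ⌊y⌋ : ℤ) : ℝ) ≤ (⌈T n + 1⌉ : ℤ) := by
        push_cast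
        linarith [e5.2]
      exact_mod_cast this
  obtain ⟨q, hq, -, hqd, hql⟩ := hn.2 _ e8
  have e9 : ⌊y⌋ + ((p : ℤ) - ⌊y⌋) = p := by ring
  rw [e9] at hqd hql
  rw [abs_of_nonneg (by positivity)] at hql
  have e10 : q ∣ p := by exact_mod_cast hqd
  have e11 : q < p := by exact_mod_cast hql
  rcases (Nat.dvd_prime hp).1 e10 with h12 | h12
  · exact hq.one_lt.ne' h12
  · omega

end Pool.Agent.K7.H61.HD
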