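import Pool.Agent.K7.H61.RF.Main
import Pool.Agent.R485.RG.FF

set_option autoImplicit false

/-! The frequency theorem in the form needed for the Cantor construction. -/

namespace Pool.Agent.K7.H61.HD

open Filter Topology Set MeasureTheory
open Real (log exp)
open Pool.Agent.R485.RG (F t2)

/-- `m` is in the residue class `r` and all `m + z` have a proper prime factor at most `X ^ (1/100)` -/
def Good (D : ℕ) (r : ℤ) (X : ℝ) (Z : Finset ℤ) (m : ℤ) : Prop :=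
  (D : ℤ) ∣ m - r ∧ ∀ z ∈ Z, ∃ p : ℕ, p.Prime ∧ (p : ℝ) ≤ X ^ (1 / 100 : ℝ) ∧ (p : ℤ) ∣ m + z ∧
    (p : ℤ) < |m + z|

/-- the input of the construction -/
def FreqIn (A D : ℕ) (c : ℝ) : Prop := ∀ ε : ℝ, 0 < ε → ∀ᶠ X : ℝ in atTop,
  ∀ (r : ℤ) (Z : Finset ℤ), (∀ z ∈ Z, |(z : ℝ)| ≤ log X * (log (log X)) ^ A) →
    (Z.card : ℝ) ≤ c * F X → ∀ (z : ℝ) (N : ℕ), (N : ℝ) ≤ X ^ (1 - ε) → ∃ m : ℕ → ℤ,
      (∀ i, i < N → z ≤ m i ∧ (m i : ℝ) ≤ z + X ∧ Good D r X Z (m i)) ∧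
      ∀ i j : ℕ, i < j → j < N → ((j : ℝ) - i) ≤ (m j : ℝ) - m i

lemma strict_gap {N : ℕ} (φ : Fin N → ℤ) (hφ : StrictMono φ) (i : ℕ) (hi : i < N) :
    ∀ j, i ≤ j → ∀ hj : j < N, (j : ℤ) - i ≤ φ ⟨j, hj⟩ - φ ⟨i, hi⟩ := by
  intro j hij
  induction j, hij using Nat.le_induction with
  | base => intro hj; simp
  | succ j hij ih =>
    intro hj
    have h1 := ih (by omega)
    have h2 : φ ⟨j, by omega⟩ < φ ⟨j + 1, hj⟩ := hφ (by simp)
    push_cast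
    omega

theorem freq_input (A D : ℕ) (hD : 0 < D) : ∃ c : ℝ, 0 < c ∧ FreqIn A D c := by
  obtain ⟨c, hc, h⟩ := Pool.Agent.K7.H61.RF.freq A 1 D hD
  refine ⟨c, hc, fun ε hε => ?_⟩
  filter_upwards [h, t2.eventually_ge_atTop (1 / ε), t2.eventually_ge_atTop 1,
    eventually_ge_atTop (1 : ℝ)] with X h1 h2 h2' h3
  intro r Z hZ hZc z N hN
  have hD0 : (0 : ℤ) < D := by exact_mod_cast hD
  obtain ⟨𝒢, hcard, h𝒢⟩ := h1 (⌈z⌉ - 1) (r % D).toNat Z hZ hZc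
  have h4 : (N : ℝ) ≤ 𝒢.card := by
    refine hN.trans (le_trans ?_ hcard)
    apply Real.rpow_le_rpow_of_exponent_le h3
    have h5 : 1 / (log (log X)) ^ 1 ≤ ε := by
      rw [pow_one, div_le_iff₀ (by linarith)]
      rw [div_le_iff₀ hε] at h2
      linarith
    linarith
  have h5 : N ≤ 𝒢.card := by exact_mod_cast h4
  set φ := Finset.orderEmbOfCardLe 𝒢 h5 with hφ
  refine ⟨fun i => if hi : i < N then φ ⟨i, hi⟩ else 0, fun i hi => ?_, fun i j hij hj => ?_⟩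
  · simp only [hi, dite_true]
    obtain ⟨⟨g1, g2, g3⟩, g4⟩ := h𝒢 _ (Finset.orderEmbOfCardLe_mem 𝒢 h5 ⟨i, hi⟩)
    rw [← hφ] at g1 g2 g3 g4
    refine ⟨?_, ?_, ?_, g4⟩
    · have g5 : ⌈z⌉ ≤ φ ⟨i, hi⟩ := by omega
      have g6 : ((⌈z⌉ : ℤ) : ℝ) ≤ ((φ ⟨i, hi⟩ : ℤ) : ℝ) := by exact_mod_cast g5
      exact (Int.le_ceil z).trans g6
    · have g5 := Int.ceil_lt_add_one z
      push_cast at g2
      linarith
    · have h6 : (((r % D).toNat : ℕ) : ℤ) = r % D := Int.toNat_of_nonneg (Int.emod_nonneg _ hD0.ne')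
      rw [h6] at g3
      have h7 : r % (D : ℤ) = r - D * (r / D) := by
        have := Int.emod_add_mul_ediv r D
        linarith
      rw [h7] at g3
      have h8 : φ ⟨i, hi⟩ - r = (φ ⟨i, hi⟩ - (r - D * (r / D))) - D * (r / D) := by ring
      rw [h8]
      exact dvd_sub g3 (dvd_mul_right _ _)
  · have hi := hij.trans hj
    simp only [hi, hj, dite_true]
    have h6 := strict_gap (fun a => φ a) φ.strictMono i hi j hij.le hj
    exact_mod_cast h6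

end Pool.Agent.K7.H61.HD
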