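import Pool.Agent.R485.RG.Allk

set_option autoImplicit false

/-! Cantor sets with prescribed choices of the children. -/

namespace Pool.Agent.K7.H61.HD

open Set Filter Topology MeasureTheory
open Pool.Agent.R485.RG (ES ES_succ cantor_dim lft)

/-- Cantor sets with prescribed choices of the children: every interval `[A, A + l k]` of stage `k` contains
`2 ^ (e k)` intervals of stage `k + 1` whose left end points have the property `P k` and which are separated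
by `s k`. -/
theorem gen_cantor {p q : ℝ} (l s : ℕ → ℝ) (e : ℕ → ℕ) (he : ∀ k, 1 ≤ e k)
    (hl : ∀ k, 0 < l k) (hs : ∀ k, 0 < s k) (hl0 : p + l 0 ≤ q) (P : ℕ → ℝ → Prop)
    (hch : ∀ k A, p ≤ A → A + l k ≤ q → ∃ c : ℕ → ℝ,
      (∀ i, i < 2^(e k) → A ≤ c i ∧ c i + l (k+1) ≤ A + l k ∧ P k (c i)) ∧
      ∀ i i', i < i' → i' < 2^(e k) → c i + l (k+1) + ((i':ℝ) - i) * s k ≤ c i')
    {t C : ℝ} (ht0 : 0 < t) (ht1 : t ≤ 1) (hC : 0 < C)
    (hcond : ∀ k, 2 ≤ C * 2^(ES e k) * (2^(e k) * s k) ^ t) :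
    ENNReal.ofReal t ≤ dimH {x | x ∈ Icc p q ∧ ∀ k, ∃ c, P k c ∧ p ≤ c ∧ c ≤ x ∧ x ≤ c + l (k+1) ∧
      c + l (k+1) ≤ q} := by
  choose! ch hch1 hch2 using hch
  set L := lft p e ch with hL
  have hL0 : ∀ j, L 0 j = p := fun j => rfl
  have hLs : ∀ k j, L (k+1) j = ch k (L k (j / 2^(e k))) (j % 2^(e k)) := fun k j => rfl
  have hmod : ∀ k j, j % 2^(e k) < 2^(e k) := fun k j => Nat.mod_lt _ (by positivity)
  have hinv : ∀ k j, p ≤ L k j ∧ L k j + l k ≤ q := by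
    intro k
    induction k with
    | zero =>
      intro j
      rw [hL0]
      exact ⟨le_rfl, hl0⟩
    | succ k ih =>
      intro j
      rw [hLs]
      obtain ⟨h1, h2⟩ := ih (j / 2^(e k))
      obtain ⟨c1, c2, -⟩ := hch1 k _ h1 h2 _ (hmod k j)
      constructor <;> linarith
  have hidx : ∀ k j i : ℕ, i < 2^(e k) → (2^(e k) * j + i) / 2^(e k) = j ∧
      (2^(e k) * j + i) % 2^(e k) = i := by
    intro k j i hi
    constructor
    · rw [Nat.mul_add_div (by positivity), Nat.div_eq_of_lt hi, add_zero]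
    · rw [Nat.mul_add_mod, Nat.mod_eq_of_lt hi]
  have hLch : ∀ k j i : ℕ, i < 2^(e k) → L (k+1) (2^(e k) * j + i) = ch k (L k j) i := by
    intro k j i hi
    rw [hLs, (hidx k j i hi).1, (hidx k j i hi).2]
  have hES : ∀ M : ℕ, ∃ k, M ≤ ES e k := by
    intro M
    refine ⟨M, ?_⟩
    unfold ES
    calc M = ∑ _i ∈ Finset.range M, 1 := by simp
      _ ≤ _ := Finset.sum_le_sum fun i _ => he i
  have key := cantor_dim hES (fun k j => Icc (L k j) (L k j + l k))
    (fun k j _ => ⟨isCompact_Icc, nonempty_Icc.2 (by linarith [hl k])⟩) ?_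
    s hs ?_ ht0 ht1 hC hcond
  · refine key.trans (dimH_mono ?_)
    intro x hx
    refine ⟨?_, fun k => ?_⟩
    · obtain ⟨j, -, hj⟩ := hx 0
      rw [hL0] at hj
      exact ⟨hj.1, by linarith [hj.2]⟩
    · obtain ⟨j, -, hj⟩ := hx (k+1)
      obtain ⟨h1, h2⟩ := hinv k (j / 2^(e k))
      obtain ⟨c1, c2, c3⟩ := hch1 k _ h1 h2 _ (hmod k j)
      obtain ⟨i1, i2⟩ := hinv (k+1) j
      exact ⟨L (k+1) j, by rw [hLs]; exact c3, i1, hj.1, hj.2, i2⟩
  · intro k j i _ hi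
    obtain ⟨h1, h2⟩ := hinv k j
    obtain ⟨c1, c2, -⟩ := hch1 k _ h1 h2 i hi
    rw [hLch k j i hi]
    exact Icc_subset_Icc c1 c2
  · intro k j i i' _ hii hi' x hx y hy
    obtain ⟨h1, h2⟩ := hinv k j
    have h3 := hch2 k _ h1 h2 i i' hii hi'
    rw [hLch k j i (hii.trans hi')] at hx
    rw [hLch k j i' hi'] at hy
    have h8 := hx.2
    have h9 := hy.1
    linarith

end Pool.Agent.K7.H61.HD
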