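import Pool.Agent.K7.H61.HD.Fin

set_option autoImplicit false

/-! Countable families of sequences: infinitely many terms in windows and patterns of record size. -/

namespace Pool.Agent.K7.H61.HD

open MeasureTheory Filter Topology Set
open Real (log exp)
open Pool.Agent.R485.RG (F G Free)

/-- A rapidly increasing sequence which meets every sequence of a countable family infinitely often. -/
theorem merge (Y v : ℕ → ℕ → ℝ) (h : ∀ i, Adm' (Y i) (v i)) {x : ℝ} (hx : 1 < x)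
    (Q : ℕ → ℕ → Prop) (hQ : ∀ i, ∀ᶠ n in atTop, Q i n) :
    ∃ m : ℕ → ℕ, (∀ k, k ≤ m k) ∧ (∀ k, Q (Nat.unpair k).1 (m k)) ∧
      Adm' (fun k => Y (Nat.unpair k).1 (m k)) (fun k => v (Nat.unpair k).1 (m k)) ∧
      ∀ k, (1 + 1) * G (fun k => Y (Nat.unpair k).1 (m k)) (fun k => v (Nat.unpair k).1 (m k)) x k ≤
        G (fun k => Y (Nat.unpair k).1 (m k)) (fun k => v (Nat.unpair k).1 (m k)) x (k + 1) := by
  have hex : ∀ (k : ℕ) (a : ℝ), ∃ n : ℕ, k ≤ n ∧ Q (Nat.unpair k).1 n ∧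
      (0 < Y (Nat.unpair k).1 n ∧ 1 ≤ v (Nat.unpair k).1 n) ∧
      (k : ℝ) ≤ log (Y (Nat.unpair k).1 n) + v (Nat.unpair k).1 n ∧
      -(1 / ((k : ℝ) + 1) * (log (Y (Nat.unpair k).1 n) + v (Nat.unpair k).1 n)) ≤
        log (Y (Nat.unpair k).1 n) ∧
      2 * a ≤ G (Y (Nat.unpair k).1) (v (Nat.unpair k).1) x n := by
    intro k a
    set i := (Nat.unpair k).1 with hi
    obtain ⟨n, h1, h2, h3, h4, h5, h6⟩ := ((eventually_ge_atTop k).and ((hQ i).and ((h i).1.and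
      (((h i).2.1.eventually_ge_atTop (k : ℝ)).and (((h i).2.2 (1 / ((k : ℝ) + 1)) (by positivity)).and
      ((G_tendsto' (h i) hx).eventually_ge_atTop (2 * a))))))).exists
    exact ⟨n, h1, h2, h3, h4, h5, h6⟩
  choose φ h1 h2 h3 h4 h5 h6 using hex
  set m : ℕ → ℕ := fun k => Nat.rec (φ 0 0)
    (fun k mk => φ (k + 1) (G (Y (Nat.unpair k).1) (v (Nat.unpair k).1) x mk)) k with hm
  have hms : ∀ k, ∃ a : ℝ, m k = φ k a := by
    intro k
    cases k with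
    | zero => exact ⟨0, rfl⟩
    | succ k => exact ⟨_, rfl⟩
  have hms' : ∀ k, m (k + 1) = φ (k + 1) (G (Y (Nat.unpair k).1) (v (Nat.unpair k).1) x (m k)) :=
    fun k => rfl
  refine ⟨m, fun k => ?_, fun k => ?_, ⟨?_, ?_, ?_⟩, fun k => ?_⟩
  · obtain ⟨a, ha⟩ := hms k
    rw [ha]
    exact h1 k a
  · obtain ⟨a, ha⟩ := hms k
    rw [ha]
    exact h2 k a
  · refine Eventually.of_forall fun k => ?_
    obtain ⟨a, ha⟩ := hms k
    simp only
    rw [ha]
    exact h3 k a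
  · refine tendsto_atTop_mono (fun k => ?_) tendsto_natCast_atTop_atTop
    obtain ⟨a, ha⟩ := hms k
    have e1 := h4 k a
    rw [← ha] at e1
    exact e1
  · intro ε hε
    filter_upwards [tendsto_natCast_atTop_atTop.eventually_ge_atTop (1 / ε)] with k hk
    obtain ⟨a, ha⟩ := hms k
    have e1 := h5 k a
    have e2 := h4 k a
    rw [← ha] at e1 e2
    have e3 : 1 / ((k : ℝ) + 1) ≤ ε := by
      rw [div_le_iff₀ hε] at hk
      rw [div_le_iff₀ (by positivity)]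
      linarith
    have e4 : (0:ℝ) ≤ k := Nat.cast_nonneg _
    have e5 := mul_le_mul_of_nonneg_right e3 (e4.trans e2)
    linarith
  · have e1 := h6 (k + 1) (G (Y (Nat.unpair k).1) (v (Nat.unpair k).1) x (m k))
    rw [← hms' k] at e1
    have e2 : G (fun k => Y (Nat.unpair k).1 (m k)) (fun k => v (Nat.unpair k).1 (m k)) x k =
        G (Y (Nat.unpair k).1) (v (Nat.unpair k).1) x (m k) := rfl
    have e3 : G (fun k => Y (Nat.unpair k).1 (m k)) (fun k => v (Nat.unpair k).1 (m k)) x (k + 1) =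
        G (Y (Nat.unpair (k + 1)).1) (v (Nat.unpair (k + 1)).1) x (m (k + 1)) := rfl
    rw [e2, e3]
    linarith

/-- **Windows, countable families.** -/
theorem io_win {c : ℝ}
    (hwin : ∀ (Y v : ℕ → ℝ) (_ : Adm' Y v) (δ C₀ : ℝ), 0 < δ → ∀ u w : ℝ, 1 ≤ u → u < w →
      (∀ᶠ n in atTop, (1 + δ) * G Y v ((u + w) / 2) n - C₀ ≤ G Y v ((u + w) / 2) (n + 1)) →
      dimH {α : ℝ | α ∈ Ioo u w ∧ ∀ᶠ n in atTop,
        Free (c * (δ / (1 + δ)) * F (Y n * α ^ (v n))) (Y n * α ^ (v n))} = 1)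
    (Y v : ℕ → ℕ → ℝ) (h : ∀ i, Adm' (Y i) (v i)) {u w : ℝ} (hu : 1 ≤ u) (huw : u < w) :
    dimH {α : ℝ | α ∈ Ioo u w ∧ ∀ i, ∃ᶠ n in atTop,
      Free (c / 2 * F (Y i n * α ^ (v i n))) (Y i n * α ^ (v i n))} = 1 := by
  obtain ⟨m, hm1, -, hm3, hm4⟩ := merge Y v h (show 1 < (u + w) / 2 by linarith) (fun _ _ => True)
    (fun i => Eventually.of_forall fun _ => trivial)
  have key := hwin _ _ hm3 1 0 one_pos u w hu huw (Eventually.of_forall fun k => by
    have := hm4 k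
    linarith)
  refine le_antisymm ((dimH_mono (subset_univ _)).trans (le_of_eq Real.dimH_univ)) ?_
  rw [← key]
  apply dimH_mono
  rintro α ⟨hα, hαn⟩
  refine ⟨hα, fun i => ?_⟩
  obtain ⟨K, hK⟩ := eventually_atTop.1 hαn
  rw [frequently_atTop]
  intro N
  set k := Nat.pair i (max N K) with hk
  have h1 : max N K ≤ k := Nat.right_le_pair _ _
  refine ⟨m k, ?_, ?_⟩
  · have := hm1 k
    have h2 : N ≤ max N K := le_max_left _ _
    omega
  · have h3 := hK k ((le_max_right _ _).trans h1)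
    have h4 : (Nat.unpair k).1 = i := by rw [hk, Nat.unpair_pair]
    simp only [h4] at h3
    have h5 : c * (1 / (1 + 1)) = c / 2 := by ring
    rw [h5] at h3
    exact h3

/-- **Patterns, countable families.** -/
theorem io_pat {A D : ℕ} {c : ℝ}
    (hpat : ∀ (Y v : ℕ → ℝ) (_ : Adm' Y v) (δ C₀ : ℝ), 0 < δ → ∀ u w : ℝ, 1 < u → u < w →
      (∀ᶠ n in atTop, (1 + δ) * G Y v u n - C₀ ≤ G Y v u (n + 1)) → ∀ (r : ℕ → ℤ) (Z : ℕ → Finset ℤ),
      (∀ᶠ n in atTop, (∀ z ∈ Z n, |(z : ℝ)| ≤ log (Y n * u ^ (v n)) *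
        (log (log (Y n * u ^ (v n)))) ^ A) ∧
        ((Z n).card : ℝ) ≤ c * (δ / (1 + δ)) * F (Y n * u ^ (v n))) →
      dimH {α : ℝ | α ∈ Icc u w ∧ ∀ᶠ n in atTop,
        Good D (r n) (Y n * α ^ (v n)) (Z n) ⌊Y n * α ^ (v n)⌋} = 1)
    (Y v : ℕ → ℕ → ℝ) (h : ∀ i, Adm' (Y i) (v i)) {u w : ℝ} (hu : 1 < u) (huw : u < w)
    (r : ℕ → ℕ → ℤ) (Z : ℕ → ℕ → Finset ℤ)
    (hZ : ∀ i, ∀ᶠ n in atTop, (∀ z ∈ Z i n, |(z : ℝ)| ≤ log (Y i n * u ^ (v i n)) *
        (log (log (Y i n * u ^ (v i n)))) ^ A) ∧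
        ((Z i n).card : ℝ) ≤ c / 2 * F (Y i n * u ^ (v i n))) :
    dimH {α : ℝ | α ∈ Icc u w ∧ ∀ i, ∃ᶠ n in atTop,
      Good D (r i n) (Y i n * α ^ (v i n)) (Z i n) ⌊Y i n * α ^ (v i n)⌋} = 1 := by
  obtain ⟨m, hm1, hm2, hm3, hm4⟩ := merge Y v h hu _ hZ
  have key := hpat _ _ hm3 1 0 one_pos u w hu huw (Eventually.of_forall fun k => by
    have := hm4 k
    linarith) (fun k => r (Nat.unpair k).1 (m k)) (fun k => Z (Nat.unpair k).1 (m k))
    (Eventually.of_forall fun k => by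
      refine ⟨(hm2 k).1, (hm2 k).2.trans (le_of_eq ?_)⟩
      have h5 : c * (1 / (1 + 1)) = c / 2 := by ring
      rw [h5])
  refine le_antisymm ((dimH_mono (subset_univ _)).trans (le_of_eq Real.dimH_univ)) ?_
  rw [← key]
  apply dimH_mono
  rintro α ⟨hα, hαn⟩
  refine ⟨hα, fun i => ?_⟩
  obtain ⟨K, hK⟩ := eventually_atTop.1 hαn
  rw [frequently_atTop]
  intro N
  set k := Nat.pair i (max N K) with hk
  have h1 : max N K ≤ k := Nat.right_le_pair _ _
  refine ⟨m k, ?_, ?_⟩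
  · have := hm1 k
    have h2 : N ≤ max N K := le_max_left _ _
    omega
  · have h3 := hK k ((le_max_right _ _).trans h1)
    have h4 : (Nat.unpair k).1 = i := by rw [hk, Nat.unpair_pair]
    simp only [h4] at h3
    exact h3

end Pool.Agent.K7.H61.HD
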