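import Pool.Agent.K7.H61.HD.Abs
import Pool.Agent.K7.H61.HD.Freq
import Pool.Agent.K7.H61.HD.Adm

set_option autoImplicit false

/-! Patterns of record size at all terms of a lacunary sequence: short intervals of parameters. -/

namespace Pool.Agent.K7.H61.HD

open MeasureTheory Filter Topology Set
open Real (log exp)
open Pool.Agent.R485.RG (F G exp_G pow_slope small_lim)

/-- the exponent of the lengths of the cells -/
noncomputable def rho (δ : ℝ) : ℝ := (δ / 2) / (4 * (1 + δ / 2))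

lemma rho_pos {δ : ℝ} (hδ : 0 < δ) : 0 < rho δ := by unfold rho; positivity

/-- **Patterns in short intervals of parameters.** -/
theorem lac_short {A D : ℕ} {c : ℝ} (hfr : FreqIn A D c)
    (Y v : ℕ → ℝ) (h : Adm' Y v) {δ C₀ : ℝ} (hδ : 0 < δ)
    {u w η t : ℝ} (hgr : ∀ᶠ n in atTop, (1 + δ) * G Y v u n - C₀ ≤ G Y v u (n + 1))
    (hu : 1 < u) (huw : u < w) (ht0 : 0 < t) (ht1 : t < 1)
    (hηd : η = (1 - t) * (δ / 2) / (16 * (1 + δ / 2)))
    (hw : log w ≤ (1 + η) * log u)
    (r : ℕ → ℤ) (Z : ℕ → Finset ℤ)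
    (hZ : ∀ᶠ n in atTop, (∀ z ∈ Z n, |(z : ℝ)| ≤ log (exp (rho δ * G Y v u n)) *
      (log (log (exp (rho δ * G Y v u n)))) ^ A) ∧
      ((Z n).card : ℝ) ≤ c * F (exp (rho δ * G Y v u n))) :
    ENNReal.ofReal t ≤ dimH {α : ℝ | α ∈ Icc u w ∧ ∀ᶠ n in atTop,
      Good D (r n) (exp (rho δ * G Y v u n)) (Z n) ⌊Y n * α ^ (v n)⌋} := by
  have hu0 : 0 < u := by linarith
  have hw0 : 0 < w := by linarith
  have hwu : 0 < w - u := by linarith
  have hlu : 0 < log u := Real.log_pos hu
  have h1t : 0 < 1 - t := by linarith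
  set δ' : ℝ := δ / 2 with hδ'
  have hδ'0 : 0 < δ' := by rw [hδ']; linarith
  have hη : 0 < η := by rw [hηd]; positivity
  set ρ : ℝ := rho δ with hρd
  have hρ : 0 < ρ := rho_pos hδ
  have hρe : ρ = δ' / (4 * (1 + δ')) := rfl
  have hρ4 : 4 * ρ * (1 + δ') ≤ δ' := by
    rw [hρe]
    apply le_of_eq
    field_simp
  have hηρ : 4 * η ≤ ρ := by
    rw [hηd, hρe, ← mul_div_assoc, div_le_div_iff₀ (by positivity) (by positivity)]
    have h1 : 0 ≤ δ' * (1 + δ') := by positivity
    nlinarith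
  have hη1 : η ≤ 1 / 16 := by
    rw [hηd, div_le_div_iff₀ (by positivity) (by norm_num)]
    nlinarith
  have hηt : η * (5 + 5 / δ') ≤ 3 / 4 * (1 - t) := by
    have e1 : η * (5 + 5 / δ') = 5 / 16 * (1 - t) := by
      rw [hηd]
      field_simp
      ring
    rw [e1]
    linarith
  set g : ℕ → ℝ := G Y v u with hg
  have hG : Tendsto g atTop atTop := G_tendsto' h hu
  have hb := bounds' h hu huw hη (by linarith) hw
  have hgr2 : ∀ᶠ n in atTop, (1 + δ') * g n ≤ g (n + 1) := by
    filter_upwards [hgr, hG.eventually_ge_atTop (2 * |C₀| / δ)] with n h6 h2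
    rw [div_le_iff₀ hδ] at h2
    have h7 := le_abs_self C₀
    rw [hδ']
    nlinarith
  have ha1 : ∀ᶠ n in atTop, 16 * u ≤ exp (2 * η * g n) :=
    (Real.tendsto_exp_atTop.comp (hG.const_mul_atTop (by positivity))).eventually_ge_atTop _
  have hb1 : ∀ᶠ n in atTop, 4 / (w * log u) * (g n + 0) * exp (-(η / 2 * g n)) ≤ 1 := by
    have h1 := ((small_lim (4 / (w * log u)) 0 (η / 2) (by positivity)).comp hG).eventually
      (gt_mem_nhds one_pos)
    filter_upwards [h1] with n hn
    exact hn.le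
  have hinit : ∀ᶠ n in atTop, exp (-((1 + 2 * η) * g n)) ≤ w - u := by
    have h1 : Tendsto (fun n => exp (-((1 + 2 * η) * g n))) atTop (𝓝 0) :=
      Real.tendsto_exp_neg_atTop_nhds_zero.comp (hG.const_mul_atTop (by positivity))
    filter_upwards [h1.eventually (gt_mem_nhds hwu)] with n hn
    exact hn.le
  have hbig : ∀ᶠ n in atTop, 2 ≤ exp ((1 - η) * ρ * g n) :=
    (Real.tendsto_exp_atTop.comp (hG.const_mul_atTop (by
      apply mul_pos _ hρ
      linarith))).eventually_ge_atTop _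
  have hXlim : Tendsto (fun n => exp (ρ * g n)) atTop atTop :=
    Real.tendsto_exp_atTop.comp (hG.const_mul_atTop hρ)
  have hfr1 := hXlim.eventually (hfr η hη)
  obtain ⟨K, hK⟩ := eventually_atTop.1 (hb.and (hgr2.and (ha1.and (hb1.and (hinit.and (hbig.and
    (hfr1.and hZ)))))))
  set a : ℕ → ℝ := fun n => v n * (Y n * u ^ (v n - 1)) with ha
  set b : ℕ → ℝ := fun n => v n * (Y n * w ^ (v n - 1)) with hbb
  have hYK : ∀ n, K ≤ n → 0 < Y n := fun n hn => (hK n hn).1.1
  have hvK : ∀ n, K ≤ n → 1 ≤ v n := fun n hn => (hK n hn).1.2.1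
  have hgK : ∀ n, K ≤ n → 1 ≤ g n := fun n hn => (hK n hn).1.2.2.1
  have habK : ∀ n, K ≤ n → a n ≤ b n := by
    intro n hn
    have h1 := hYK n hn
    have h2 := hvK n hn
    have h3 : 0 < v n := by linarith
    simp only [ha, hbb]
    have h4 : u ^ (v n - 1) ≤ w ^ (v n - 1) := Real.rpow_le_rpow hu0.le huw.le (by linarith)
    gcongr
  have haK : ∀ n, K ≤ n → 16 * exp ((1 - 2 * η) * g n) ≤ a n := by
    intro n hn
    have h1 := hYK n hn
    have h2 := hvK n hn
    have h3 : 16 * u ≤ exp (2 * η * g n) := (hK n hn).2.2.1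
    have h4 : exp (g n) = Y n * u ^ (v n) := exp_G h1 hu0
    have h5 : u ^ (v n - 1) = u ^ (v n) / u := by rw [Real.rpow_sub hu0, Real.rpow_one]
    have h6 : exp (g n) / u ≤ a n := by
      simp only [ha]
      rw [h5, h4]
      have h7 : 0 < Y n * u ^ (v n) / u := by positivity
      calc Y n * u ^ (v n) / u = 1 * (Y n * u ^ (v n) / u) := (one_mul _).symm
        _ ≤ v n * (Y n * u ^ (v n) / u) := mul_le_mul_of_nonneg_right h2 h7.le
        _ = v n * (Y n * (u ^ (v n) / u)) := by ring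
    refine le_trans ?_ h6
    rw [le_div_iff₀ hu0]
    have e1 : exp ((1 - 2 * η) * g n) * exp (2 * η * g n) = exp (g n) := by
      rw [← Real.exp_add]
      congr 1
      ring
    calc 16 * exp ((1 - 2 * η) * g n) * u = exp ((1 - 2 * η) * g n) * (16 * u) := by ring
      _ ≤ exp ((1 - 2 * η) * g n) * exp (2 * η * g n) :=
          mul_le_mul_of_nonneg_left h3 (Real.exp_pos _).le
      _ = exp (g n) := e1
  have hbK : ∀ n, K ≤ n → 2 * b n ≤ exp ((1 + 2 * η) * g n) := by
    intro n hn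
    have h1 := hYK n hn
    have h2 := hvK n hn
    have h3 := (hK n hn).1.2.2.2.1
    have h4 := (hK n hn).1.2.2.2.2
    have h5 := (hK n hn).2.2.2.1
    have h6 : w ^ (v n - 1) = w ^ (v n) / w := by rw [Real.rpow_sub hw0, Real.rpow_one]
    have hgn := hgK n hn
    simp only [hbb]
    rw [h6]
    have h7 : 0 < Y n * w ^ (v n) := by positivity
    have h8 : 0 ≤ 2 * g n / log u := by positivity
    calc 2 * (v n * (Y n * (w ^ (v n) / w))) = 2 * (v n * (Y n * w ^ (v n)) / w) := by ring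
      _ ≤ 2 * ((2 * g n / log u) * exp ((1 + 3 / 2 * η) * g n) / w) := by
          gcongr
      _ = (4 / (w * log u) * (g n + 0) * exp (-(η / 2 * g n))) * exp ((1 + 2 * η) * g n) := by
          have e1 : exp ((1 + 3 / 2 * η) * g n) = exp (-(η / 2 * g n)) * exp ((1 + 2 * η) * g n) := by
            rw [← Real.exp_add]
            congr 1
            ring
          rw [e1]
          field_simp
          ring
      _ ≤ 1 * exp ((1 + 2 * η) * g n) := mul_le_mul_of_nonneg_right h5 (Real.exp_pos _).le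
      _ = _ := one_mul _
  have key := abs_dim huw (fun k x => Y (K + (k + 1)) * x ^ (v (K + (k + 1)))) (fun k => a (K + (k + 1)))
    (fun k => b (K + (k + 1))) (fun k => g (K + k))
    (fun k m => Good D (r (K + (k + 1))) (exp (ρ * g (K + (k + 1)))) (Z (K + (k + 1))) m)
    hδ'0 hη hρ hρ4 hηρ ht0 ht1.le hηt
    (by have := hgK K le_rfl; simp only [add_zero]; linarith)
    (fun k => (hK (K + k) (by omega)).2.1)
    (by simpa using (hK K le_rfl).2.2.2.2.1)
    (fun k => hbK _ (by omega)) (fun k => haK _ (by omega))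
    (fun k => (hK (K + (k + 1)) (by omega)).2.2.2.2.2.1)
    (fun k => habK _ (by omega))
    (fun k => by
      apply ContinuousOn.mul continuousOn_const
      apply ContinuousOn.rpow_const continuousOn_id
      intro x hx
      left
      exact (hu0.trans_le hx.1).ne')
    (fun k x hx y hy hxy => by
      have hY := hYK (K + (k + 1)) (by omega)
      have hv := hvK (K + (k + 1)) (by omega)
      have hv0 : 0 < v (K + (k + 1)) := by linarith
      have hx0 : 0 < x := hu0.trans_le hx.1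
      obtain ⟨s1, s2⟩ := pow_slope hx0 hxy hv
      have hyx : 0 ≤ y - x := by linarith
      have e1 : u ^ (v (K + (k + 1)) - 1) ≤ x ^ (v (K + (k + 1)) - 1) :=
        Real.rpow_le_rpow hu0.le hx.1 (by linarith)
      have e2 : y ^ (v (K + (k + 1)) - 1) ≤ w ^ (v (K + (k + 1)) - 1) :=
        Real.rpow_le_rpow (by linarith [hy.1]) hy.2 (by linarith)
      rw [← mul_sub]
      constructor
      · calc a (K + (k + 1)) * (y - x) =
              Y (K + (k + 1)) * (v (K + (k + 1)) * u ^ (v (K + (k + 1)) - 1) * (y - x)) := by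
              simp only [ha]; ring
          _ ≤ Y (K + (k + 1)) * (v (K + (k + 1)) * x ^ (v (K + (k + 1)) - 1) * (y - x)) := by gcongr
          _ ≤ Y (K + (k + 1)) * (y ^ v (K + (k + 1)) - x ^ v (K + (k + 1))) :=
              mul_le_mul_of_nonneg_left s1 hY.le
      · calc Y (K + (k + 1)) * (y ^ v (K + (k + 1)) - x ^ v (K + (k + 1)))
            ≤ Y (K + (k + 1)) * (v (K + (k + 1)) * y ^ (v (K + (k + 1)) - 1) * (y - x)) :=
              mul_le_mul_of_nonneg_left s2 hY.le
          _ ≤ Y (K + (k + 1)) * (v (K + (k + 1)) * w ^ (v (K + (k + 1)) - 1) * (y - x)) := by gcongr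
          _ = b (K + (k + 1)) * (y - x) := by simp only [hbb]; ring)
    (fun k z _ _ N hN => by
      obtain ⟨-, -, -, -, -, -, h7, h8, h9⟩ := hK (K + (k + 1)) (by omega)
      refine h7 (r (K + (k + 1))) (Z (K + (k + 1))) h8 h9 z N ?_
      rw [← Real.exp_mul]
      refine hN.trans (le_of_eq ?_)
      congr 1
      ring)
  refine key.trans (dimH_mono ?_)
  rintro x ⟨hx, hxk⟩
  refine ⟨hx, eventually_atTop.2 ⟨K + 1, fun n hn => ?_⟩⟩
  obtain ⟨k, rfl⟩ := Nat.exists_eq_add_of_le hn
  obtain ⟨m, hm1, hm2, hm3⟩ := hxk k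
  have e1 : K + 1 + k = K + (k + 1) := by ring
  rw [e1]
  have e2 : ⌊Y (K + (k + 1)) * x ^ (v (K + (k + 1)))⌋ = m := by
    rw [Int.floor_eq_iff]
    exact ⟨hm2, by linarith⟩
  rw [e2]
  exact hm1

end Pool.Agent.K7.H61.HD
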