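import Pool.Agent.K7.H61.HD.Fin
import Pool.Agent.R485.RG.Lac2

set_option autoImplicit false

/-! Numbers all whose iterated powers are in windows of record size: dimension one. -/

namespace Pool.Agent.K7.H61.HD

open MeasureTheory Filter Topology Set
open Real (log exp)
open Pool.Agent.R485.RG (F G exp_G pow_slope Free adm_of_lac)

lemma root_lip {B : ℝ} (hB : 1 ≤ B) {x y : ℝ} (hx : 1 ≤ x) (hxy : x ≤ y) :
    0 ≤ y ^ (1 / B) - x ^ (1 / B) ∧ y ^ (1 / B) - x ^ (1 / B) ≤ y - x := by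
  have hB0 : 0 < B := by linarith
  have hx0 : 0 < x := by linarith
  have hy0 : 0 < y := by linarith
  have h1 : x ^ (1 / B) ≤ y ^ (1 / B) := Real.rpow_le_rpow hx0.le hxy (by positivity)
  have h2 : 1 ≤ x ^ (1 / B) := Real.one_le_rpow hx (by positivity)
  have h3 := (pow_slope (show 0 < x ^ (1 / B) by linarith) h1 hB).1
  have e1 : (x ^ (1 / B)) ^ B = x := by
    rw [← Real.rpow_mul hx0.le, one_div_mul_cancel hB0.ne', Real.rpow_one]
  have e2 : (y ^ (1 / B)) ^ B = y := by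
    rw [← Real.rpow_mul hy0.le, one_div_mul_cancel hB0.ne', Real.rpow_one]
  rw [e1, e2] at h3
  refine ⟨by linarith, le_trans ?_ h3⟩
  have h4 : 1 ≤ (x ^ (1 / B)) ^ (B - 1) := Real.one_le_rpow h2 (by linarith)
  have h5 : 1 ≤ B * (x ^ (1 / B)) ^ (B - 1) := by nlinarith
  nlinarith

/-- **Mills type numbers**: dimension one. -/
theorem mills_dim {c : ℝ}
    (hwin : ∀ (Y v : ℕ → ℝ) (_ : Adm' Y v) (δ C₀ : ℝ), 0 < δ → ∀ u w : ℝ, 1 ≤ u → u < w →
      (∀ᶠ n in atTop, (1 + δ) * G Y v ((u + w) / 2) n - C₀ ≤ G Y v ((u + w) / 2) (n + 1)) →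
      dimH {α : ℝ | α ∈ Ioo u w ∧ ∀ᶠ n in atTop,
        Free (c * (δ / (1 + δ)) * F (Y n * α ^ (v n))) (Y n * α ^ (v n))} = 1)
    {b : ℝ} (hb : 1 < b) (x₁ : ℝ) :
    dimH {A : ℝ | x₁ < A ∧ 1 < A ∧ ∀ k : ℕ,
      Free (c * ((b - 1) / b) * F (A ^ (b ^ k))) (A ^ (b ^ k))} = 1 := by
  have hδ : 0 < b - 1 := by linarith
  have hb0 : 0 < b := by linarith
  have hA : Adm' (fun _ => 1) (fun n : ℕ => b ^ n) :=
    adm'_of_adm (adm_of_lac hδ ⟨1, one_pos, Eventually.of_forall fun _ => le_rfl⟩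
      (Eventually.of_forall fun n => one_le_pow₀ hb.le)
      (Eventually.of_forall fun n => by
        rw [pow_succ]
        apply le_of_eq
        ring))
  have h1 := hwin (fun _ => 1) (fun n : ℕ => b ^ n) hA (b - 1) 0 hδ 2 3 (by norm_num) (by norm_num)
    (Eventually.of_forall fun n => by
      unfold G
      simp only [Real.log_one]
      rw [pow_succ]
      apply le_of_eq
      ring)
  have hbe : (b - 1) / (1 + (b - 1)) = (b - 1) / b := by
    congr 1
    ring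
  rw [hbe] at h1
  simp only [one_mul] at h1
  set S : ℕ → Set ℝ := fun N => {α : ℝ | α ∈ Ioo (2:ℝ) 3 ∧ ∀ n, N ≤ n →
    Free (c * ((b - 1) / b) * F (α ^ (b ^ n))) (α ^ (b ^ n))} with hS
  have hU : {α : ℝ | α ∈ Ioo (2:ℝ) 3 ∧ ∀ᶠ n in atTop,
      Free (c * ((b - 1) / b) * F (α ^ (b ^ n))) (α ^ (b ^ n))} = ⋃ N, S N := by
    ext α
    simp only [hS, mem_iUnion, mem_ofPred_eq, eventually_atTop]
    constructor
    · rintro ⟨h2, N, h3⟩
      exact ⟨N, h2, h3⟩
    · rintro ⟨N, h2, h3⟩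
      exact ⟨h2, N, h3⟩
  rw [hU, dimH_iUnion] at h1
  refine le_antisymm ((dimH_mono (subset_univ _)).trans (le_of_eq Real.dimH_univ)) ?_
  rw [← h1]
  refine iSup_le fun N => ?_
  -- choose a larger index
  have hlim : Tendsto (fun n : ℕ => (2:ℝ) ^ (b ^ n)) atTop atTop := by
    have := val_tendsto' hA (show (1:ℝ) < 2 by norm_num)
    simpa using this
  obtain ⟨N', hN1, hN2⟩ := ((eventually_ge_atTop N).and (hlim.eventually_gt_atTop x₁)).exists
  set B : ℝ := b ^ N' with hB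
  have hB1 : 1 ≤ B := one_le_pow₀ hb.le
  have hB0 : 0 < B := by linarith
  set Tt : Set ℝ := {A : ℝ | x₁ < A ∧ 1 < A ∧ ∀ k : ℕ,
      Free (c * ((b - 1) / b) * F (A ^ (b ^ k))) (A ^ (b ^ k))} with hTt
  have hlip : LipschitzOnWith 1 (fun A : ℝ => A ^ (1 / B)) Tt := by
    refine LipschitzOnWith.of_dist_le_mul fun x hx y hy => ?_
    rw [NNReal.coe_one, one_mul, Real.dist_eq, Real.dist_eq]
    rcases le_total x y with hxy | hxy
    · obtain ⟨h2, h3⟩ := root_lip hB1 hx.2.1.le hxy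
      rw [abs_sub_comm, abs_of_nonneg h2, abs_sub_comm, abs_of_nonneg (by linarith)]
      exact h3
    · obtain ⟨h2, h3⟩ := root_lip hB1 hy.2.1.le hxy
      rw [abs_of_nonneg h2, abs_of_nonneg (by linarith)]
      exact h3
  refine le_trans ?_ (hlip.dimH_image_le)
  apply dimH_mono
  rintro α ⟨hα, hαn⟩
  have hα0 : 0 < α := by linarith [hα.1]
  refine ⟨α ^ B, ⟨?_, ?_, fun k => ?_⟩, ?_⟩
  · refine hN2.trans_le ?_
    exact Real.rpow_le_rpow (by norm_num) hα.1.le hB0.le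
  · exact Real.one_lt_rpow (by linarith [hα.1]) hB0
  · have h5 := hαn (N' + k) (by omega)
    have e1 : (α ^ B) ^ (b ^ k) = α ^ (b ^ (N' + k)) := by
      rw [← Real.rpow_mul hα0.le, hB, pow_add]
    rw [e1]
    exact h5
  · simp only
    rw [← Real.rpow_mul hα0.le, mul_one_div_cancel hB0.ne', Real.rpow_one]

end Pool.Agent.K7.H61.HD
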