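import Pool.Agent.K7.H61.HD.Gen

set_option autoImplicit false

/-! Two levels per stage: evenly spaced cells, and arbitrary (possibly clustered) centres in the cells. -/

namespace Pool.Agent.K7.H61.HD

open Set Filter Topology MeasureTheory
open Pool.Agent.R485.RG (ES ES_succ)

/-- interleaving -/
def alt {α : Type*} (u v : ℕ → α) (n : ℕ) : α := if n % 2 = 0 then u (n / 2) else v (n / 2)

lemma alt_even {α : Type*} (u v : ℕ → α) (k : ℕ) : alt u v (2 * k) = u k := by
  unfold alt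
  rw [if_pos (by omega)]
  congr 1
  omega

lemma alt_odd {α : Type*} (u v : ℕ → α) (k : ℕ) : alt u v (2 * k + 1) = v k := by
  unfold alt
  rw [if_neg (by omega)]
  congr 1
  omega

lemma ES_alt (u v : ℕ → ℕ) (k : ℕ) : ES (alt u v) (2 * k) = ES (fun j => u j + v j) k := by
  induction k with
  | zero => simp [ES]
  | succ k ih =>
    have e1 : 2 * (k + 1) = (2 * k + 1) + 1 := by ring
    rw [e1, ES_succ, ES_succ, ES_succ, ih, alt_even, alt_odd]
    ring

theorem two_level {p q : ℝ} (hpq : p < q) (f : ℕ → ℝ → ℝ) (a b X : ℕ → ℝ) (Cen : ℕ → ℤ → Prop)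
    (ha : ∀ k, 0 < a k) (hab : ∀ k, a k ≤ b k) (hX : ∀ k, 0 < X k)
    (hf : ∀ k, ContinuousOn (f k) (Icc p q))
    (hs : ∀ k, ∀ x ∈ Icc p q, ∀ y ∈ Icc p q, x ≤ y →
      a k * (y - x) ≤ f k y - f k x ∧ f k y - f k x ≤ b k * (y - x))
    (e1 e2 : ℕ → ℕ) (he1 : ∀ k, 1 ≤ e1 k) (he2 : ∀ k, 1 ≤ e2 k)
    (hcen : ∀ k z, f k p ≤ z → z + X k + 1 ≤ f k q → ∃ m : ℕ → ℤ,
       (∀ i, i < 2^(e2 k) → z ≤ m i ∧ (m i : ℝ) ≤ z + X k ∧ Cen k (m i)) ∧
       ∀ i j : ℕ, i < j → j < 2^(e2 k) → ((j : ℝ) - i) ≤ (m j : ℝ) - m i)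
    (l : ℕ → ℝ) (hl0 : l 0 = q - p) (hl : ∀ k, l (k + 1) = 1 / (2 * b k))
    (hcell : ∀ k, 2^(e1 k) * (2 * ((X k + 1) / a k)) ≤ l k)
    {t C : ℝ} (ht0 : 0 < t) (ht1 : t ≤ 1) (hC : 0 < C)
    (hc1 : ∀ k, 2 ≤ C * 2^(ES (fun j => e1 j + e2 j) k) * (l k / 2) ^ t)
    (hc2 : ∀ k, 2 ≤ C * 2^(ES (fun j => e1 j + e2 j) k + e1 k) * (2^(e2 k) / (2 * b k)) ^ t) :
    ENNReal.ofReal t ≤ dimH {x | x ∈ Icc p q ∧ ∀ k, ∃ m : ℤ, Cen k m ∧ (m : ℝ) ≤ f k x ∧
      f k x ≤ m + 1 / 2} := by
  have hb : ∀ k, 0 < b k := fun k => (ha k).trans_le (hab k)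
  have hlp : ∀ k, 0 < l k := by
    intro k
    refine lt_of_lt_of_le ?_ (hcell k)
    have := ha k
    have := hX k
    positivity
  set lam : ℕ → ℝ := fun k => l k / 2^(e1 k) with hlam
  have hlamp : ∀ k, 0 < lam k := fun k => by
    have := hlp k
    simp only [hlam]
    positivity
  have hlam1 : ∀ k, 2 * ((X k + 1) / a k) ≤ lam k := by
    intro k
    simp only [hlam]
    rw [le_div_iff₀ (by positivity)]
    linarith [hcell k]
  have hlam2 : ∀ k, (2^(e1 k) : ℝ) * lam k = l k := by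
    intro k
    simp only [hlam]
    field_simp
  have hlam3 : ∀ k, X k + 1 ≤ a k * (lam k / 2) := by
    intro k
    have h1 := hlam1 k
    have h2 : (X k + 1) / a k ≤ lam k / 2 := by linarith
    rw [div_le_iff₀ (ha k)] at h2
    linarith
  set P : ℕ → ℝ → Prop := alt (fun _ _ => True) (fun k c => ∃ m : ℤ, Cen k m ∧ f k c = m) with hP
  have key := gen_cantor (p := p) (q := q) (alt l (fun k => lam k / 2))
    (alt (fun k => lam k / 2) (fun k => 1 / (2 * b k))) (alt e1 e2) ?_ ?_ ?_ ?_ P ?_ ht0 ht1 hC ?_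
  · refine key.trans (dimH_mono ?_)
    rintro x ⟨hx, hk⟩
    refine ⟨hx, fun k => ?_⟩
    obtain ⟨c, hc, hpc, hcx, hxc, hcq⟩ := hk (2 * k + 1)
    rw [hP, alt_odd] at hc
    obtain ⟨m, hm, hfm⟩ := hc
    have e3 : alt l (fun k => lam k / 2) (2 * k + 1 + 1) = 1 / (2 * b k) := by
      rw [show 2 * k + 1 + 1 = 2 * (k + 1) by ring, alt_even, hl]
    rw [e3] at hxc
    have hbk := hb k
    have hak := ha k
    obtain ⟨s1, s2⟩ := hs k c ⟨hpc, hcx.trans hx.2⟩ x hx hcx
    have s3 : 0 ≤ a k * (x - c) := mul_nonneg hak.le (by linarith)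
    have s4 : b k * (x - c) ≤ b k * (1 / (2 * b k)) := mul_le_mul_of_nonneg_left (by linarith) hbk.le
    have s5 : b k * (1 / (2 * b k)) = 1 / 2 := by field_simp
    exact ⟨m, hm, by linarith, by linarith⟩
  · intro n
    obtain ⟨k, rfl | rfl⟩ := Nat.even_or_odd' n
    · rw [alt_even]; exact he1 k
    · rw [alt_odd]; exact he2 k
  · intro n
    obtain ⟨k, rfl | rfl⟩ := Nat.even_or_odd' n
    · rw [alt_even]; exact hlp k
    · rw [alt_odd]; have := hlamp k; linarith
  · intro n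
    obtain ⟨k, rfl | rfl⟩ := Nat.even_or_odd' n
    · rw [alt_even]; have := hlamp k; linarith
    · rw [alt_odd]; have := hb k; positivity
  · have := alt_even l (fun k => lam k / 2) 0
    rw [mul_zero] at this
    rw [this, hl0]
    linarith
  · intro n A hA hAq
    obtain ⟨k, rfl | rfl⟩ := Nat.even_or_odd' n
    · rw [alt_even] at hAq
      rw [alt_odd, alt_even, alt_even, alt_even]
      have h2 := hlamp k
      refine ⟨fun i => A + i * lam k, fun i hi => ⟨?_, ?_, ?_⟩, fun i i' hi hi' => ?_⟩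
      · have : 0 ≤ (i : ℝ) * lam k := by positivity
        linarith
      · have h3 : ((i : ℝ) + 1) * lam k ≤ l k := by
          rw [← hlam2 k]
          apply mul_le_mul_of_nonneg_right _ h2.le
          exact_mod_cast hi
        linarith
      · rw [hP, alt_even]
        trivial
      · have h3 : ((i : ℝ) + 1) ≤ i' := by exact_mod_cast hi
        nlinarith
    · rw [alt_odd] at hAq
      have e3 : alt l (fun k => lam k / 2) (2 * k + 1 + 1) = 1 / (2 * b k) := by
        rw [show 2 * k + 1 + 1 = 2 * (k + 1) by ring, alt_even, hl]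
      rw [e3, alt_odd, alt_odd, alt_odd]
      have hbk := hb k
      have hak := ha k
      have h2 := hlamp k
      have h3 := hlam3 k
      have hp : p ∈ Icc p q := ⟨le_rfl, hpq.le⟩
      have hq : q ∈ Icc p q := ⟨hpq.le, le_rfl⟩
      have hAm : A ∈ Icc p q := ⟨hA, by linarith⟩
      have hBm : A + lam k / 2 ∈ Icc p q := ⟨by linarith, hAq⟩
      have s1 := (hs k _ hp _ hAm hA).1
      have s2 := (hs k _ hBm _ hq hAq).1
      have s3 := (hs k _ hAm _ hBm (by linarith)).1
      have g1 : 0 ≤ a k * (A - p) := mul_nonneg hak.le (by linarith)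
      have g2 : 0 ≤ a k * (q - (A + lam k / 2)) := mul_nonneg hak.le (by linarith)
      have e4 : A + lam k / 2 - A = lam k / 2 := by ring
      rw [e4] at s3
      obtain ⟨m, hm1, hm2⟩ := hcen k (f k A) (by linarith) (by linarith)
      have hex : ∀ i, i < 2 ^ (e2 k) → ∃ c, (c ∈ Icc A (A + lam k / 2)) ∧ f k c = m i := by
        intro i hi
        obtain ⟨m1, m2, -⟩ := hm1 i hi
        obtain ⟨c, hc, hfc⟩ := intermediate_value_Icc (show A ≤ A + lam k / 2 by linarith)
          ((hf k).mono (Icc_subset_Icc hAm.1 hBm.2)) ⟨m1, by linarith⟩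
        exact ⟨c, hc, hfc⟩
      choose! c hc hfc using hex
      have hcm : ∀ i, i < 2 ^ (e2 k) → c i ∈ Icc p q := fun i hi =>
        ⟨hA.trans (hc i hi).1, (hc i hi).2.trans hAq⟩
      refine ⟨c, fun i hi => ⟨(hc i hi).1, ?_, ?_⟩, fun i i' hi hi' => ?_⟩
      · obtain ⟨m1, m2, -⟩ := hm1 i hi
        have s4 := (hs k _ (hcm i hi) _ hBm (hc i hi).2).2
        rw [hfc i hi] at s4
        have s5 : 1 ≤ b k * (A + lam k / 2 - c i) := by linarith
        have s6 : 1 / b k ≤ A + lam k / 2 - c i := by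
          rw [div_le_iff₀ hbk]
          linarith
        have s7 : 1 / (2 * b k) ≤ 1 / b k := by
          apply one_div_le_one_div_of_le hbk
          linarith
        linarith
      · rw [hP, alt_odd]
        exact ⟨m i, (hm1 i hi).2.2, hfc i hi⟩
      · have h5 := hm2 i i' hi hi'
        have hi1 := hi.trans hi'
        have h4 : (1:ℝ) ≤ (i' : ℝ) - i := by
          have : ((i : ℝ) + 1) ≤ i' := by exact_mod_cast hi
          linarith
        have hlt : c i ≤ c i' := by
          by_contra hcon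
          push Not at hcon
          have s4 := (hs k _ (hcm i' hi') _ (hcm i hi1) hcon.le).1
          rw [hfc i' hi', hfc i hi1] at s4
          have s5 : 0 ≤ a k * (c i - c i') := mul_nonneg hak.le (by linarith)
          linarith
        have s4 := (hs k _ (hcm i hi1) _ (hcm i' hi') hlt).2
        rw [hfc i' hi', hfc i hi1] at s4
        have s6 : ((i' : ℝ) - i) / b k ≤ c i' - c i := by
          rw [div_le_iff₀ hbk]
          linarith
        have s7 : 1 / (2 * b k) + ((i' : ℝ) - i) * (1 / (2 * b k)) ≤ ((i' : ℝ) - i) / b k := by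
          have s8 : ((i' : ℝ) - i) / b k = 2 * (((i' : ℝ) - i) * (1 / (2 * b k))) := by
            field_simp
          rw [s8]
          have s9 : 1 * (1 / (2 * b k)) ≤ ((i' : ℝ) - i) * (1 / (2 * b k)) :=
            mul_le_mul_of_nonneg_right h4 (by positivity)
          linarith
        linarith
  · intro n
    obtain ⟨k, rfl | rfl⟩ := Nat.even_or_odd' n
    · rw [ES_alt, alt_even, alt_even]
      have e3 : (2 : ℝ) ^ (e1 k) * (lam k / 2) = l k / 2 := by
        rw [← hlam2 k]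
        ring
      rw [e3]
      exact hc1 k
    · rw [ES_succ, ES_alt, alt_even, alt_odd, alt_odd]
      have e3 : (2 : ℝ) ^ (e2 k) * (1 / (2 * b k)) = 2 ^ (e2 k) / (2 * b k) := by
        ring
      rw [e3]
      exact hc2 k

end Pool.Agent.K7.H61.HD
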